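import Pool.Agent.Helper42.PP.Goals1
import Pool.Agent.Helper42.RD.VAL
import Pool.Agent.Helper90.RP.SUB

/-!
# Project PP, part B, packet P_LFI: the group `LocS`
-/

namespace Pool.Agent.Helper74.PP

open NumberField Polynomial Module IsDedekindDomain Pool.Agent.Helper51.SigLeo
open Pool.Agent.Helper51.RP Pool.Agent.Helper42.RD Pool.Agent.Helper42.PP
open Pool.Agent.Helper49.RSV (weakApproxUnits)

section local_group

variable (p : ℕ) {F : Type} [Field F] [NumberField F]

/-- The local condition: `t` is congruent to `1` modulo `w`, and modulo `p³` at `w`. -/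
def AW (w : HeightOneSpectrum (𝓞 F)) (t : F) : Prop :=
  w.valuation F (t - 1) < 1 ∧ w.valuation F (t - 1) ≤ w.valuation F (p : F) ^ 3

variable {p} {w : HeightOneSpectrum (𝓞 F)}

theorem aw_one : AW p w 1 := by
  refine ⟨?_, ?_⟩
  · rw [sub_self, map_zero]
    exact zero_lt_one
  · rw [sub_self, map_zero]
    exact zero_le

theorem aw_mul {x y : F} (hx : AW p w x) (hy : AW p w y) : AW p w (x * y) := by
  refine ⟨val_mul_sub w hx.1 hy.1, ?_⟩
  have e : x * y - 1 = (x - 1) * y + (y - 1) := by ring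
  rw [e]
  refine Valuation.map_add_le _ ?_ hy.2
  rw [map_mul, val_eq_one_of_sub w hy.1, mul_one]
  exact hx.2

theorem aw_ne_zero {x : F} (hx : AW p w x) : x ≠ 0 := by
  have h1 := val_eq_one_of_sub w hx.1
  rintro rfl
  rw [map_zero] at h1
  exact zero_ne_one h1

theorem aw_inv {x : F} (hx : AW p w x) : AW p w x⁻¹ := by
  refine ⟨val_inv_sub w hx.1, ?_⟩
  have h1 := val_eq_one_of_sub w hx.1
  have h0 := aw_ne_zero hx
  have e : x⁻¹ - 1 = -((x - 1) * x⁻¹) := by
    field_simp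
    ring
  rw [e, Valuation.map_neg, map_mul, map_inv₀, h1, inv_one, mul_one]
  exact hx.2

theorem aw_pow {x : F} (hx : AW p w x) (n : ℕ) : AW p w (x ^ n) := by
  induction n with
  | zero => rw [pow_zero]; exact aw_one
  | succ n ih => rw [pow_succ]; exact aw_mul ih hx

/-- The group of the elements which satisfy the local condition up to a `p`-th power. -/
def LocG (p : ℕ) (w : HeightOneSpectrum (𝓞 F)) : Subgroup Fˣ where
  carrier := {x | ∃ y : Fˣ, AW p w ((x : F) * (y : F) ^ p)}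
  one_mem' := ⟨1, by
    rw [Units.val_one, one_pow, mul_one]
    exact aw_one⟩
  mul_mem' := by
    rintro x x' ⟨y, hy⟩ ⟨y', hy'⟩
    refine ⟨y * y', ?_⟩
    have e : ((x * x' : Fˣ) : F) * ((y * y' : Fˣ) : F) ^ p =
        ((x : F) * (y : F) ^ p) * ((x' : F) * (y' : F) ^ p) := by
      push_cast
      ring
    rw [e]
    exact aw_mul hy hy'
  inv_mem' := by
    rintro x ⟨y, hy⟩
    refine ⟨y⁻¹, ?_⟩
    have e : ((x⁻¹ : Fˣ) : F) * ((y⁻¹ : Fˣ) : F) ^ p = ((x : F) * (y : F) ^ p)⁻¹ := by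
      rw [Units.val_inv_eq_inv_val, Units.val_inv_eq_inv_val, mul_inv, inv_pow]
    rw [e]
    exact aw_inv hy

theorem mem_LocG (x : Fˣ) : x ∈ LocG p w ↔ ∃ y : Fˣ, AW p w ((x : F) * (y : F) ^ p) := Iff.rfl

/-- The local group has finite index. -/
theorem finiteIndex_LocG (hp : p.Prime) (w : HeightOneSpectrum (𝓞 F)) : (LocG p w).FiniteIndex := by
  classical
  haveI : NeZero p := ⟨hp.ne_zero⟩
  have hp3 : w.valuation F (p : F) ^ 3 ≠ 0 :=
    pow_ne_zero _ ((Valuation.ne_zero_iff _).2 (Nat.cast_ne_zero.2 hp.ne_zero))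
  obtain ⟨n, hn1, hn2⟩ := WithZero.exists_exp_neg_natCast_lt_and_lt hp3
    (one_ne_zero (α := WithZero (Multiplicative ℤ)))
  have hclose : ∀ a b : F, w.valuation F b = 1 → w.valuation F (a - b) ≤ WithZero.exp (-(n : ℤ)) →
      AW p w (a / b) := by
    intro a b hb hab
    have hb0 : b ≠ 0 := by
      rintro rfl
      rw [map_zero] at hb
      exact zero_ne_one hb
    have e : a / b - 1 = (a - b) / b := by field_simp
    unfold AW
    rw [e, map_div₀, hb, div_one]
    exact ⟨hab.trans_lt hn2, hab.trans hn1.le⟩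
  obtain ⟨π, hπ⟩ := w.valuation_exists_uniformizer F
  have hπ0 : π ≠ 0 := by
    rintro rfl
    rw [map_zero] at hπ
    exact absurd hπ.symm (by simp)
  have hπ1 : ordv w π = 1 := by
    unfold ordv
    rw [hπ, WithZero.log_exp]
    norm_num
  -- the unit part
  let u : Fˣ → F := fun x => (x : F) * π ^ (-ordv w (x : F))
  have hu : ∀ x, w.valuation F (u x) = 1 := by
    intro x
    have hz0 : u x ≠ 0 := mul_ne_zero x.ne_zero (zpow_ne_zero _ hπ0)
    rw [← ordv_eq_zero_iff w hz0]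
    change ordv w ((x : F) * π ^ (-ordv w (x : F))) = 0
    rw [ordv_mul w x.ne_zero (zpow_ne_zero _ hπ0), ordv_zpow w hπ0, hπ1]
    ring
  have hγ : (WithZero.exp (-(n : ℤ)) : WithZero (Multiplicative ℤ)) ≠ 0 := WithZero.exp_ne_zero
  have hc : ∀ x : Fˣ, ∃ c : 𝓞 F, w.valuation F ((c : F) - u x) < WithZero.exp (-(n : ℤ)) := by
    intro x
    obtain ⟨c, hc⟩ := w.exists_valuation_sub_lt_of_integer (K := F) (hu x).le (Units.mk0 _ hγ)
    exact ⟨c, hc⟩
  choose c hc using hc
  have hne : w.asIdeal ^ n ≠ ⊥ := pow_ne_zero _ w.ne_bot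
  haveI : Finite (𝓞 F ⧸ w.asIdeal ^ n) := Ideal.finiteQuotientOfFreeOfNeBot _ hne
  let f : Fˣ → ZMod p × (𝓞 F ⧸ w.asIdeal ^ n) := fun x =>
    (((ordv w (x : F) : ℤ) : ZMod p), Ideal.Quotient.mk _ (c x))
  have hf : ∀ x x' : Fˣ, f x = f x' → x⁻¹ * x' ∈ LocG p w := by
    intro x x' h
    have h1 : ((ordv w (x : F) : ℤ) : ZMod p) = ((ordv w (x' : F) : ℤ) : ZMod p) :=
      congrArg Prod.fst h
    have h2 : Ideal.Quotient.mk (w.asIdeal ^ n) (c x) = Ideal.Quotient.mk _ (c x') :=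
      congrArg Prod.snd h
    rw [ZMod.intCast_eq_intCast_iff_dvd_sub] at h1
    obtain ⟨m, hm⟩ := h1
    rw [Ideal.Quotient.eq, ← w.intValuation_le_pow_iff_mem,
      ← w.valuation_of_algebraMap (K := F)] at h2
    have h2' : w.valuation F ((c x : F) - (c x' : F)) ≤ WithZero.exp (-(n : ℤ)) := h2
    have h3 : w.valuation F (u x' - u x) ≤ WithZero.exp (-(n : ℤ)) := by
      have e : u x' - u x = ((c x : F) - u x) - ((c x' : F) - u x') -
          ((c x : F) - (c x' : F)) := by ring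
      rw [e]
      exact Valuation.map_sub_le _ (Valuation.map_sub_le _ (hc x).le (hc x').le) h2'
    have h5 := hclose _ _ (hu x) h3
    rw [mem_LocG]
    refine ⟨Units.mk0 (π ^ (-m)) (zpow_ne_zero _ hπ0), ?_⟩
    have e : ((x⁻¹ * x' : Fˣ) : F) * ((Units.mk0 (π ^ (-m)) (zpow_ne_zero _ hπ0) : Fˣ) : F) ^ p =
        u x' / u x := by
      change _ = ((x' : F) * π ^ (-ordv w (x' : F))) / ((x : F) * π ^ (-ordv w (x : F)))
      rw [Units.val_mk0, Units.val_mul, Units.val_inv_eq_inv_val, ← zpow_natCast, ← zpow_mul,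
        mul_div_mul_comm, ← zpow_sub₀ hπ0]
      have e2 : -m * (p : ℤ) = -ordv w (x' : F) - -ordv w (x : F) := by
        have : ordv w (x' : F) = ordv w (x : F) + p * m := by linarith
        rw [this]
        ring
      rw [e2]
      congr 1
      rw [div_eq_mul_inv, mul_comm]
    rw [e]
    exact h5
  haveI : Finite (Fˣ ⧸ LocG p w) := by
    refine Finite.of_injective (fun q : Fˣ ⧸ LocG p w => f q.out) ?_
    intro q q' h
    have h1 := hf _ _ h
    rw [← QuotientGroup.out_eq' q, ← QuotientGroup.out_eq' q']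
    exact QuotientGroup.eq.2 h1
  exact Subgroup.finiteIndex_of_finite_quotient

end local_group

theorem p_lfi : Pool.Agent.Helper42.PP.P_LFI := by
  classical
  intro p hpF K F _ _ _ _ _ Z hZf hZp hZs
  have hp : p.Prime := hpF.out
  let G : Subgroup Fˣ :=
    { carrier := {x | LocS p Z x}
      one_mem' := ⟨1, fun w _ => by
        rw [Units.val_one, one_pow, mul_one]
        exact aw_one⟩
      mul_mem' := by
        rintro x x' ⟨y, hy⟩ ⟨y', hy'⟩
        refine ⟨y * y', fun w hw => ?_⟩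
        have e : ((x * x' : Fˣ) : F) * ((y * y' : Fˣ) : F) ^ p =
            ((x : F) * (y : F) ^ p) * ((x' : F) * (y' : F) ^ p) := by
          push_cast
          ring
        rw [e]
        exact aw_mul (hy w hw) (hy' w hw)
      inv_mem' := by
        rintro x ⟨y, hy⟩
        refine ⟨y⁻¹, fun w hw => ?_⟩
        have e : ((x⁻¹ : Fˣ) : F) * ((y⁻¹ : Fˣ) : F) ^ p = ((x : F) * (y : F) ^ p)⁻¹ := by
          rw [Units.val_inv_eq_inv_val, Units.val_inv_eq_inv_val, mul_inv, inv_pow]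
        rw [e]
        exact aw_inv (hy w hw) }
  have hG : ∀ x, x ∈ G ↔ LocS p Z x := fun _ => Iff.rfl
  refine ⟨G, hG, ?_, ?_, ?_, ?_⟩
  · -- finite index
    haveI hfi : (⨅ w ∈ hZf.toFinset, LocG p w : Subgroup Fˣ).FiniteIndex :=
      Subgroup.finiteIndex_iInf' _ (fun w _ => finiteIndex_LocG hp w)
    refine Subgroup.finiteIndex_of_le (H := (⨅ w ∈ hZf.toFinset, LocG p w : Subgroup Fˣ)) ?_
    intro x hx
    rw [hG]
    have h1 : ∀ w, ∃ y : Fˣ, w ∈ Z → AW p w ((x : F) * (y : F) ^ p) := by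
      intro w
      by_cases hw : w ∈ Z
      · have h2 : x ∈ LocG p w := by
          have h3 : (⨅ w ∈ hZf.toFinset, LocG p w : Subgroup Fˣ) ≤ LocG p w :=
            iInf₂_le w (hZf.mem_toFinset.2 hw)
          exact h3 hx
        obtain ⟨y, hy⟩ := h2
        exact ⟨y, fun _ => hy⟩
      · exact ⟨1, fun h => absurd h hw⟩
    choose t ht using h1
    obtain ⟨y, hy⟩ := weakApproxUnits hZf.toFinset t
      (fun w => w.valuation F (p : F) ^ 3 * w.valuation F (t w : F))
      (fun w => mul_ne_zero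
        (pow_ne_zero _ ((Valuation.ne_zero_iff _).2 (Nat.cast_ne_zero.2 hp.ne_zero)))
        ((Valuation.ne_zero_iff _).2 (t w).ne_zero))
    refine ⟨y, fun w hw => ?_⟩
    obtain ⟨hy1, hy2⟩ := hy w (hZf.mem_toFinset.2 hw)
    have hv0 : 0 < w.valuation F (t w : F) :=
      zero_lt_iff.2 ((Valuation.ne_zero_iff _).2 (t w).ne_zero)
    have h4 : AW p w ((y : F) / t w) := by
      have e : (y : F) / t w - 1 = ((y : F) - t w) / t w := by
        have := (t w).ne_zero
        field_simp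
      unfold AW
      rw [e, map_div₀]
      exact ⟨(div_lt_one₀ hv0).2 hy2, (div_le_iff₀ hv0).2 hy1⟩
    have h5 := aw_mul (ht w hw) (aw_pow h4 p)
    have e : (x : F) * (t w : F) ^ p * ((y : F) / t w) ^ p = (x : F) * (y : F) ^ p := by
      have := (t w).ne_zero
      rw [div_pow]
      field_simp
    rw [e] at h5
    exact h5
  · -- `p`-th powers
    rintro x ⟨y, rfl⟩
    rw [hG]
    refine ⟨y⁻¹, fun w _ => ?_⟩
    have e : ((y ^ p : Fˣ) : F) * ((y⁻¹ : Fˣ) : F) ^ p = 1 := by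
      rw [Units.val_pow_eq_pow_val, Units.val_inv_eq_inv_val, ← mul_pow,
        mul_inv_cancel₀ y.ne_zero, one_pow]
    rw [e]
    exact aw_one
  · -- stability
    intro σ x hx
    rw [hG] at hx ⊢
    obtain ⟨y, hy⟩ := hx
    refine ⟨act σ y, fun w hw => ?_⟩
    obtain ⟨w', hw'⟩ := Pool.Agent.Helper90.RP.exists_conj (σ⁻¹ : F ≃ₐ[K] F) w
    have hw'Z : w' ∈ Z := hZs w hw w' ⟨σ⁻¹, hw'⟩
    have h1 : ∀ z : F, w.valuation F (σ z) = w'.valuation F z := by
      intro z
      rw [← hw' (σ z)]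
      congr 1
      exact σ.symm_apply_apply z
    have e : ((act σ x : Fˣ) : F) * ((act σ y : Fˣ) : F) ^ p - 1 =
        σ ((x : F) * (y : F) ^ p - 1) := by
      rw [map_sub, map_mul, map_pow, map_one]
      rfl
    have e2 : w.valuation F (p : F) = w'.valuation F (p : F) := by
      have e3 := h1 (p : F)
      rw [map_natCast σ] at e3
      exact e3
    rw [e, h1, e2]
    exact hy w' hw'Z
  · -- local consequences
    intro x hx w hw
    rw [hG] at hx
    obtain ⟨y, hy⟩ := hx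
    have h1 := (hy w hw).1
    refine ⟨?_, (y : F), h1⟩
    have h2 := val_eq_one_of_sub w h1
    have h3 : (x : F) * (y : F) ^ p ≠ 0 := mul_ne_zero x.ne_zero (pow_ne_zero _ y.ne_zero)
    rw [← ordv_eq_zero_iff w h3, ordv_mul w x.ne_zero (pow_ne_zero _ y.ne_zero), ordv_pow] at h2
    exact ⟨-ordv w (y : F), by linarith⟩

end Pool.Agent.Helper74.PP
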