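import Pool.Agent.Helper76.PP.Goals3
import Pool.Agent.Helper42.PP.NZY
import Pool.Agent.Helper30.PP.PFUN

/-!
# Project PP, part B, packet B_KUE: the element of `kum`
-/

set_option autoImplicit false

namespace Pool.Agent.Helper74.PP

open NumberField Polynomial Module IsDedekindDomain
open Pool.Agent.Helper51.RP Pool.Agent.Helper42.RD Pool.Agent.Helper42.PP Pool.Agent.Helper76.PP
open Pool.Agent.Helper40.RS (bel gw bel_smul lies conj_of_bel free_gw absNorm_free val_smul)
open Pool.Agent.Helper13.RD (eq_gw ram_free eq_of_val)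
open Pool.Agent.Helper40.RD (bel_of_above ordW)
open Pool.Agent.Helper30.PP (pol_eq act_mul hom_pow p_nsmul)

section alg

variable {p : ℕ} [Fact p.Prime] {K M : Type} [Field K] [Field M] [Algebra K M]

theorem act_one (x : Mˣ) : act (1 : M ≃ₐ[K] M) x = x := by
  ext
  rfl

/-- `P(δ) e(δ) x` is a `p`-th power if `X^m - 1 ∣ P e`. -/
theorem pw_pol (m : ℕ) (δ : M ≃ₐ[K] M) (hδ : δ ^ m = 1) (P e : (ZMod p)[X])
    (h : X ^ m - 1 ∣ P * e) (x : Mˣ) : Pw p (pol P δ (pol e δ x)) := by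
  classical
  let R : Subgroup Mˣ := (powMonoidHom p : Mˣ →* Mˣ).range
  let V := Additive (Mˣ ⧸ R)
  let π : Mˣ → V := fun x => Additive.ofMul (QuotientGroup.mk x : Mˣ ⧸ R)
  have hπmul : ∀ x y, π (x * y) = π x + π y := fun x y => rfl
  have hπone : π 1 = 0 := rfl
  have hπpow : ∀ (x : Mˣ) (n : ℕ), π (x ^ n) = n • π x := fun x n => rfl
  have hπ0 : ∀ x, π x = 0 ↔ Pw p x := by
    intro x
    have h1 : π x = 0 ↔ (QuotientGroup.mk x : Mˣ ⧸ R) = 1 := Iff.rfl
    rw [h1, QuotientGroup.eq_one_iff]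
    constructor
    · rintro ⟨y, hy⟩
      exact ⟨y, hy.symm⟩
    · rintro ⟨y, hy⟩
      exact ⟨y, hy.symm⟩
  have hsurj : ∀ v : V, ∃ x, π x = v := fun v => QuotientGroup.mk_surjective (s := R) v.toMul
  have hpV : ∀ v : V, p • v = 0 := by
    intro v
    obtain ⟨x, rfl⟩ := hsurj v
    rw [← hπpow, hπ0]
    exact ⟨x, rfl⟩
  letI : Module (ZMod p) V := AddCommGroup.zmodModule (n := p) (G := V) hpV
  let D0 : (Mˣ ⧸ R) →* (Mˣ ⧸ R) := QuotientGroup.map R R (act δ) (by
    rintro _ ⟨y, rfl⟩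
    exact ⟨act δ y, (map_pow (act δ) y p).symm⟩)
  let D : V →ₗ[ZMod p] V := AddMonoidHom.toZModLinearMap p (MonoidHom.toAdditive D0)
  have hD : ∀ x, D (π x) = π (act δ x) := fun x => rfl
  have hDn : ∀ (n : ℕ) (x : Mˣ), (D ^ n) (π x) = π (act (δ ^ n) x) := by
    intro n
    induction n with
    | zero =>
      intro x
      rw [pow_zero, pow_zero, act_one]
      rfl
    | succ n ih =>
      intro x
      rw [pow_succ', pow_succ', act_mul, Module.End.mul_apply, ih, hD]
  have hπprod : ∀ (s : Finset ℕ) (g : ℕ → Mˣ), π (∏ j ∈ s, g j) = ∑ j ∈ s, π (g j) := by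
    intro s g
    induction s using Finset.induction_on with
    | empty => rw [Finset.prod_empty, Finset.sum_empty, hπone]
    | insert a s ha ih => rw [Finset.prod_insert ha, Finset.sum_insert ha, hπmul, ih]
  have hpol : ∀ (c : (ZMod p)[X]) (x : Mˣ), π (pol c δ x) = (aeval D c) (π x) := by
    intro c x
    rw [aeval_endomorphism, Polynomial.sum_def, pol_eq, hπprod]
    apply Finset.sum_congr rfl
    intro j _
    rw [hπpow, hDn]
    conv_rhs => rw [← ZMod.natCast_zmod_val (c.coeff j)]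
    rw [Nat.cast_smul_eq_nsmul]
  obtain ⟨T, hT⟩ := h
  rw [← hπ0, hpol, hpol, ← Module.End.mul_apply, ← map_mul, hT, map_mul]
  have hzero : (aeval D (X ^ m - 1 : (ZMod p)[X])) = 0 := by
    rw [map_sub, map_pow, aeval_X, map_one]
    apply LinearMap.ext
    intro v
    obtain ⟨y, rfl⟩ := hsurj v
    rw [LinearMap.sub_apply, hDn, hδ, act_one, Module.End.one_apply, sub_self]
    rfl
  rw [hzero, zero_mul]
  rfl

theorem exists_idem (m : ℕ) (hm : m.Coprime p) (P : (ZMod p)[X]) (hP : P ∣ X ^ m - 1) :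
    ∃ e : (ZMod p)[X], AdjoinRoot.mk P e = 1 ∧ X ^ m - 1 ∣ P * e := by
  obtain ⟨Q, hQ⟩ := hP
  have hsep : (X ^ m - 1 : (ZMod p)[X]).Separable := by
    rw [X_pow_sub_one_separable_iff]
    intro h
    rw [ZMod.natCast_eq_zero_iff] at h
    have h1 := Nat.dvd_gcd h (dvd_refl p)
    rw [hm] at h1
    exact (Fact.out : p.Prime).one_lt.ne' (Nat.dvd_one.1 h1)
  have hcop : IsCoprime P Q := by
    rw [hQ] at hsep
    exact hsep.isCoprime
  obtain ⟨u, v, huv⟩ := hcop
  refine ⟨v * Q, ?_, v, ?_⟩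
  · have h1 : v * Q = 1 - u * P := by rw [← huv]; ring
    rw [h1, map_sub, map_one, map_mul, AdjoinRoot.mk_self, mul_zero, sub_zero]
  · rw [hQ]
    ring

theorem hom_prodf {A : Type} [AddCommGroup A] {F : Mˣ → A} (hF : Hom F) {ι : Type}
    (s : Finset ι) (g : ι → Mˣ) : F (∏ i ∈ s, g i) = ∑ i ∈ s, F (g i) := by
  classical
  induction s using Finset.induction_on with
  | empty =>
    rw [Finset.prod_empty, Finset.sum_empty]
    exact Pool.Agent.Helper30.PP.hom_one hF
  | insert a s ha ih => rw [Finset.prod_insert ha, hF, ih, Finset.sum_insert ha]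

end alg

section vals

variable {K M : Type} [Field K] [Field M] [NumberField M] [Algebra K M]
  [NumberField K] [IsGalois K M]

/-- The elements which are units at all primes above `v`. -/
def Uv (K : Type) {M : Type} [Field K] [Field M] [NumberField M] [Algebra K M] [NumberField K]
    (v : HeightOneSpectrum (𝓞 K)) : Subgroup Mˣ where
  carrier := {x | ∀ w : HeightOneSpectrum (𝓞 M), Above w v → ordv w (x : M) = 0}
  one_mem' := fun w _ => ordv_one w
  mul_mem' := by
    intro x y hx hy w hw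
    rw [Units.val_mul, ordv_mul w x.ne_zero y.ne_zero, hx w hw, hy w hw, add_zero]
  inv_mem' := by
    intro x hx w hw
    rw [Units.val_inv_eq_inv_val, ordv_inv w x.ne_zero, hx w hw, neg_zero]

theorem mem_Uv {v : HeightOneSpectrum (𝓞 K)} {x : Mˣ} :
    x ∈ Uv K v ↔ ∀ w : HeightOneSpectrum (𝓞 M), Above w v → ordv w (x : M) = 0 := Iff.rfl

theorem act_mem_Uv {v : HeightOneSpectrum (𝓞 K)} {x : Mˣ} (hx : x ∈ Uv K v) (g : M ≃ₐ[K] M) :
    act g x ∈ Uv K v := by
  intro w hw
  obtain ⟨w', h1, h2⟩ := exists_pull (K := K) w g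
  have h3 : Above w' v := by
    rw [bel_of_above hw] at h2
    rw [← h2]
    rfl
  change ordv w (g (x : M)) = 0
  rw [ordv_of_val h1]
  exact hx w' h3

theorem pol_mem_Uv {p : ℕ} {v : HeightOneSpectrum (𝓞 K)} {x : Mˣ} (hx : x ∈ Uv K v)
    (c : (ZMod p)[X]) (δ : M ≃ₐ[K] M) : pol c δ x ∈ Uv K v := by
  rw [pol_eq]
  exact Subgroup.prod_mem _ (fun j _ => Subgroup.pow_mem _ (act_mem_Uv hx _) _)

end vals

section main

variable {p : ℕ} [Fact p.Prime] {k : Type} [NormedField k] [NormedAlgebra ℚ_[p] k]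
  {K M K₁ M₁ : Type} [Field K] [NumberField K] [Field M] [NumberField M] [Field K₁]
  [NumberField K₁] [Field M₁] [NumberField M₁] [Algebra K M] [Algebra K K₁] [Algebra K M₁]
  [Algebra M M₁] [Algebra K₁ M₁] {ε : K₁} {δ : M ≃ₐ[K] M} {P : (ZMod p)[X]}
  [IsScalarTower K M M₁] [IsGalois K M] [IsGalois K M₁]

/-- The valuations of the norm of `z v` (as `Pool.Agent.Helper42.PP.ord_nrm`). -/
theorem ord_nrm' (B : Base p K M K₁ M₁ ε δ P)
    {v : HeightOneSpectrum (𝓞 K)} (hv : v ∈ B.Vis) (w : HeightOneSpectrum (𝓞 M))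
    (hw : w ∉ up M B.S) :
    (w = B.w v → ordv w (nrm M M₁ (B.z v) : M) = 1) ∧
      (w ≠ B.w v → ordv w (nrm M M₁ (B.z v) : M) = 0) := by
  classical
  have : IsGalois M M₁ := IsGalois.tower_top_of_isGalois K M M₁
  obtain ⟨hWv, hWQ, hWw, hWf⟩ := B.Wa v hv
  have hvS : v ∉ B.S := hv.1
  -- general formula
  have key : ∀ W : HeightOneSpectrum (𝓞 M₁), Above W w →
      ordv w (nrm M M₁ (B.z v) : M) = ∑ g : M₁ ≃ₐ[M] M₁, ordv W (g (B.z v : M₁)) := by
    intro W hW
    have hb : bel K W ∉ B.S := by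
      have h1 := bel_bel (K := K) (M := M) W
      rw [bel_of_above hW] at h1
      rw [← h1]
      exact bel_notMem hw
    have h2 := ord_of_unr (K := K) (M := M) (W := W) (w := w) (v := bel K W) rfl hW
      (B.unr (bel K W) hb W rfl) (nrm M M₁ (B.z v) : M)
    rw [← h2]
    have h3 : algebraMap M M₁ (nrm M M₁ (B.z v) : M) = ∏ g : M₁ ≃ₐ[M] M₁, g (B.z v : M₁) :=
      Algebra.norm_eq_prod_automorphisms M (B.z v : M₁)
    rw [h3, ordv_prod]
    intro g _
    exact (map_ne_zero g).2 (B.z v).ne_zero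
  -- the values of the terms
  have hterm : ∀ (W : HeightOneSpectrum (𝓞 M₁)), Above W w → ∀ g : M₁ ≃ₐ[M] M₁,
      ∃ W' : HeightOneSpectrum (𝓞 M₁), (∀ y : M₁, W.valuation M₁ (g y) = W'.valuation M₁ y) ∧
        Above W' w ∧ (W' = B.W v → ordv W (g (B.z v : M₁)) = 1) ∧
        (W' ≠ B.W v → ordv W (g (B.z v : M₁)) = 0) := by
    intro W hW g
    obtain ⟨W', h1, h2⟩ := exists_pull (K := M) W g
    have h3 : Above W' w := by
      rw [bel_of_above hW] at h2
      rw [← h2]; rfl
    have h4 : W' ∉ up M₁ B.S := by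
      apply notMem_up (v := bel K W')
      · have h5 := bel_bel (K := K) (M := M) W'
        rw [bel_of_above h3] at h5
        rw [← h5]
        exact bel_notMem hw
      · rfl
    have h6 := B.zo v hv W' h4
    refine ⟨W', h1, h3, ?_, ?_⟩
    · intro h
      rw [ordv_of_val h1]
      exact h6.1 h
    · intro h
      rw [ordv_of_val h1]
      exact h6.2 h
  constructor
  · intro hwv
    subst hwv
    rw [key (B.W v) hWw, Finset.sum_eq_single (1 : M₁ ≃ₐ[M] M₁)]
    · obtain ⟨W', h1, h2, h3, h4⟩ := hterm (B.W v) hWw 1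
      apply h3
      exact (eq_of_val fun y => (h1 y)).symm
    · intro g _ hg
      obtain ⟨W', h1, h2, h3, h4⟩ := hterm (B.W v) hWw g
      apply h4
      intro h5
      apply hg
      subst h5
      have h6 := hWf (g.restrictScalars K) (fun y => h1 y)
      ext y
      have h7 := congrArg (fun f : M₁ ≃ₐ[K] M₁ => f y) h6
      exact h7
    · intro h
      exact absurd (Finset.mem_univ _) h
  · intro hne
    obtain ⟨W, hW⟩ := exists_bel (M₁ := M₁) w
    have hW' : Above W w := by rw [← hW]; rfl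
    rw [key W hW']
    apply Finset.sum_eq_zero
    intro g _
    obtain ⟨W', h1, h2, h3, h4⟩ := hterm W hW' g
    apply h4
    intro h5
    apply hne
    rw [h5] at h2
    rw [← bel_of_above h2, ← bel_of_above hWw]

theorem nv_nrm' (hP : P ∣ X ^ (finrank K M) - 1) (hord : orderOf δ = finrank K M)
    (B : Base p K M K₁ M₁ ε δ P)
    {v v' : HeightOneSpectrum (𝓞 K)} (hv : v ∈ B.Vis) (hv' : v' ∈ B.Vis) :
    (v = v' → B.nv v (nrm M M₁ (B.z v')) = 1) ∧ (v ≠ v' → B.nv v (nrm M M₁ (B.z v')) = 0) := by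
  classical
  obtain ⟨hWv, hWQ, hWw, hWf⟩ := B.Wa v hv
  obtain ⟨hWv', hWQ', hWw', hWf'⟩ := B.Wa v' hv'
  have hvS : v ∉ B.S := hv.1
  have hwv : Above (B.w v) v := bel_of hWv hWw
  have hwv' : Above (B.w v') v' := bel_of hWv' hWw'
  have hfree : FreeP K (B.w v) := free_below hWw hWf
  have hterm : ∀ i : ℕ, ∃ w' : HeightOneSpectrum (𝓞 M),
      (∀ y : M, (B.w v).valuation M ((δ ^ i : M ≃ₐ[K] M) y) = w'.valuation M y) ∧
      Above w' v ∧ (w' = B.w v' → ordp p (B.w v) (act (δ ^ i) (nrm M M₁ (B.z v'))) = 1) ∧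
      (w' ≠ B.w v' → ordp p (B.w v) (act (δ ^ i) (nrm M M₁ (B.z v'))) = 0) := by
    intro i
    obtain ⟨w', h1, h2⟩ := exists_pull (K := K) (B.w v) (δ ^ i)
    have h3 : Above w' v := by
      rw [bel_of_above hwv] at h2
      rw [← h2]; rfl
    have h4 := ord_nrm' B hv' w' (notMem_up hvS h3)
    refine ⟨w', h1, h3, ?_, ?_⟩
    · intro h
      show ((ordv (B.w v) ((δ ^ i : M ≃ₐ[K] M) (nrm M M₁ (B.z v') : M)) : ℤ) : ZMod p) = 1
      rw [ordv_of_val h1, h4.1 h]
      norm_num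
    · intro h
      show ((ordv (B.w v) ((δ ^ i : M ≃ₐ[K] M) (nrm M M₁ (B.z v') : M)) : ℤ) : ZMod p) = 0
      rw [ordv_of_val h1, h4.2 h]
      norm_num
  have hm0 : 0 < finrank K M := finrank_pos
  constructor
  · intro h
    subst h
    show ∑ i ∈ Finset.range (finrank K M), _ = _
    rw [Finset.sum_eq_single 0]
    · obtain ⟨w', h1, h2, h3, h4⟩ := hterm 0
      rw [h3, map_one, one_mul, Nat.sub_zero, root_pow_m _ hP]
      rw [pow_zero] at h1
      exact (eq_of_val fun y => (h1 y)).symm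
    · intro i hi hi0
      obtain ⟨w', h1, h2, h3, h4⟩ := hterm i
      rw [h4, map_zero, zero_mul]
      intro h5
      subst h5
      have h6 := hfree _ h1
      have h7 : orderOf δ ∣ i := orderOf_dvd_of_pow_eq_one h6
      rw [hord] at h7
      have h8 := Nat.le_of_dvd (Nat.pos_of_ne_zero hi0) h7
      have h9 := Finset.mem_range.1 hi
      omega
    · intro h
      exact absurd (Finset.mem_range.2 hm0) h
  · intro h
    show ∑ i ∈ Finset.range (finrank K M), _ = _
    apply Finset.sum_eq_zero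
    intro i _
    obtain ⟨w', h1, h2, h3, h4⟩ := hterm i
    rw [h4, map_zero, zero_mul]
    intro h5
    apply h
    rw [h5] at h2
    exact (bel_of_above h2).symm.trans (bel_of_above hwv')

end main

theorem b_kue (h1 : Pool.Agent.Helper42.PP.P_FUN) (h2 : Pool.Agent.Helper42.PP.P_UPR)
    (_h3 : Pool.Agent.Helper76.PP.B_NOR) (h4 : Pool.Agent.Helper76.PP.B_LOG)
    (_h5 : Pool.Agent.Helper76.PP.B_NRM) (h6 : Pool.Agent.Helper42.RD.E_TOW) :
    Pool.Agent.Helper76.PP.B_KUE := by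
  classical
  intro p hpF k _ _ K M K₁ M₁ _ _ _ _ _ _ _ _ _ _ _ _ _ _ _ _ _ _ ε hT m δ ζ Φ P hphi hord
    hfin B x D c hD hne
  subst hfin
  have hp : p.Prime := hpF.out
  have hm0 : 0 < finrank K M := finrank_pos
  have hδ : δ ^ finrank K M = 1 := by rw [← hord]; exact pow_orderOf_eq_one δ
  obtain ⟨hPF1, hPF2⟩ := h1 p K M (finrank K M) δ P hm0 hphi.copm hδ hphi.irr hphi.dvdP
  obtain ⟨e, he1, he2⟩ := exists_idem (finrank K M) hphi.copm P hphi.dvdP
  set z' : HeightOneSpectrum (𝓞 K) → Mˣ := fun q => nrm M M₁ (B.z q) with hz'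
  set a : Fin B.r → AdjoinRoot P := fun i => x i - ∑ q ∈ D, c q * B.rho i (z' q) with ha
  choose b hb using fun i => AdjoinRoot.mk_surjective (g := P) (a i)
  choose d hd using fun q => AdjoinRoot.mk_surjective (g := P) (c q)
  set Y : Mˣ := (∏ i, pol (b i) δ (B.u i)) * ∏ q ∈ D, pol (d q) δ (z' q) with hY
  set X₀ : Mˣ := pol e δ Y with hX₀
  have hval : ∀ F : Mˣ → AdjoinRoot P, IsP δ P F →
      F X₀ = ∑ i, a i * F (B.u i) + ∑ q ∈ D, c q * F (z' q) := by
    intro F hF
    have g1 := (hPF1 F hF).1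
    rw [hX₀, g1, he1, one_mul, hY, hF.1, hom_prodf hF.1, hom_prodf hF.1]
    congr 1
    · apply Finset.sum_congr rfl
      intro i _
      rw [g1, hb]
    · apply Finset.sum_congr rfl
      intro q _
      rw [g1, hd]
  -- units
  have huS : ∀ (i : Fin B.r) (v : HeightOneSpectrum (𝓞 K)), v ∉ B.S → B.u i ∈ Uv K v := by
    intro i v hv w hw
    rw [ordv_eq_zero_iff w (B.u i).ne_zero]
    exact B.uS i w (notMem_up hv hw)
  have hzU : ∀ q ∈ B.Vis, ∀ v : HeightOneSpectrum (𝓞 K), v ∉ B.S → v ≠ q → z' q ∈ Uv K v := by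
    intro q hq v hv hvq w hw
    have g1 := (ord_nrm' B hq w (notMem_up hv hw)).2
    apply g1
    intro g2
    obtain ⟨hWq, hWQ, hWw, hWf⟩ := B.Wa q hq
    have hwq : Above (B.w q) q := bel_of hWq hWw
    rw [g2] at hw
    exact hvq ((bel_of_above hw).symm.trans (bel_of_above hwq))
  refine ⟨X₀, ?_, ?_⟩
  · -- not a `p`-th power
    rintro ⟨y, hy⟩
    have hy0 : y ≠ 0 := by
      rintro rfl
      rw [zero_pow hp.ne_zero] at hy
      exact X₀.ne_zero ((map_eq_zero (algebraMap M M₁)).1 hy.symm)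
    have hcop : (finrank M M₁).Coprime p := (h6 p K M K₁ M₁ ε hT).2.2.1
    have hzero : ∀ F : Mˣ → AdjoinRoot P, IsP δ P F → F X₀ = 0 := by
      intro F hF
      have g1 : (nrm M M₁ (Units.mk0 y hy0)) ^ p = X₀ ^ finrank M M₁ := by
        apply Units.ext
        rw [Units.val_pow_eq_pow_val, Units.val_pow_eq_pow_val]
        change (Algebra.norm M y) ^ p = _
        rw [← map_pow, hy, Algebra.norm_algebraMap]
      have g2 : p • F (nrm M M₁ (Units.mk0 y hy0)) = finrank M M₁ • F X₀ := by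
        rw [← hom_pow hF.1, g1, hom_pow hF.1]
      rw [p_nsmul] at g2
      have g3 : addOrderOf (F X₀) ∣ finrank M M₁ := addOrderOf_dvd_of_nsmul_eq_zero g2.symm
      have g4 : addOrderOf (F X₀) ∣ p := addOrderOf_dvd_of_nsmul_eq_zero (p_nsmul _)
      have g5 := Nat.dvd_gcd g3 g4
      rw [hcop] at g5
      exact AddMonoid.addOrderOf_eq_one_iff.1 (Nat.dvd_one.1 g5)
    by_cases hDe : D.Nonempty
    · obtain ⟨q, hq⟩ := hDe
      obtain ⟨hqV, hcq⟩ := hD q hq
      have hnvP : IsP δ P (B.nv q) := by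
        refine (hPF2 (ordp p (B.w q)) ?_).1
        intro s t
        show ((ordv (B.w q) ((s : M) * (t : M)) : ℤ) : ZMod p) = _
        rw [ordv_mul _ s.ne_zero t.ne_zero]
        push_cast
        rfl
      have g1 := hval _ hnvP
      rw [hzero _ hnvP] at g1
      have hqS : q ∉ B.S := hqV.1
      obtain ⟨hWq, hWQ, hWw, hWf⟩ := B.Wa q hqV
      have hwq : Above (B.w q) q := bel_of hWq hWw
      have g2 : ∀ i, B.nv q (B.u i) = 0 := by
        intro i
        show ∑ j ∈ Finset.range (finrank K M), _ = _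
        apply Finset.sum_eq_zero
        intro j _
        have g3 : ordp p (B.w q) (act (δ ^ j) (B.u i)) = 0 := by
          unfold ordp
          rw [act_mem_Uv (huS i q hqS) (δ ^ j) (B.w q) hwq, Int.cast_zero]
        rw [g3, map_zero, zero_mul]
      have g4 : ∑ i, a i * B.nv q (B.u i) = 0 :=
        Finset.sum_eq_zero (fun i _ => by rw [g2, mul_zero])
      have g5 : ∑ q' ∈ D, c q' * B.nv q (z' q') = c q := by
        rw [Finset.sum_eq_single q]
        · rw [(nv_nrm' hphi.dvdP hord B hqV hqV).1 rfl, mul_one]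
        · intro q' hq' hqq
          rw [(nv_nrm' hphi.dvdP hord B hqV (hD q' hq').1).2 (Ne.symm hqq), mul_zero]
        · intro g6
          exact absurd hq g6
      rw [g4, g5, zero_add] at g1
      exact hcq g1.symm
    · rcases hne with g0 | g0
      · exact hDe g0
      · obtain ⟨j, hj⟩ : ∃ j, x j ≠ 0 := by
          by_contra hcon
          push Not at hcon
          exact g0 (funext hcon)
        have hDE : D = ∅ := Finset.not_nonempty_iff_eq_empty.1 hDe
        have g1 := hval _ (B.rhoP j)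
        rw [hzero _ (B.rhoP j), hDE, Finset.sum_empty, add_zero,
          Finset.sum_congr rfl (fun i _ => by rw [B.rhou j i])] at g1
        simp only [mul_ite, mul_one, mul_zero, Finset.sum_ite_eq, Finset.mem_univ,
          if_true] at g1
        rw [ha] at g1
        simp only [hDE, Finset.sum_empty, sub_zero] at g1
        exact hj g1.symm
  · -- local `p`-th powers
    intro v hv hvD hsum W hW _
    have hvS : v ∉ B.S := hv.1
    obtain ⟨hWv, hWQ, hWw, hWf⟩ := B.Wa v hv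
    have hwv : Above (B.w v) v := bel_of hWv hWw
    have hfh : Hom (fun x : Mˣ ↦ B.th v (inc M M₁ x)) := by
      intro s t
      show B.th v (inc M M₁ (s * t)) = _
      rw [map_mul, B.thh v hv]
    obtain ⟨hRP, hR3⟩ := hPF2 _ hfh
    have hRP' : IsP δ P (B.R v) := hRP
    have g1 := hval _ hRP'
    have g2 : B.R v X₀ = 0 := by
      rw [g1, ← hsum]
      have g3 : ∀ q ∈ D, c q * B.A v q =
          c q * B.R v (z' q) - ∑ i, c q * (B.R v (B.u i) * B.rho i (z' q)) := by
        intro q _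
        rw [← Finset.mul_sum]
        show c q * (B.R v (z' q) - ∑ i, B.R v (B.u i) * B.rho i (z' q)) = _
        ring
      rw [Finset.sum_congr rfl g3, Finset.sum_sub_distrib, Finset.sum_comm]
      have g4 : ∀ i, a i * B.R v (B.u i) = x i * B.R v (B.u i) -
          ∑ q ∈ D, c q * (B.R v (B.u i) * B.rho i (z' q)) := by
        intro i
        rw [ha]
        simp only []
        rw [sub_mul, Finset.sum_mul]
        congr 1
        apply Finset.sum_congr rfl
        intro q _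
        ring
      rw [Finset.sum_congr rfl (fun i _ => g4 i), Finset.sum_sub_distrib]
      ring
    have hpw : Pw p (pol P δ X₀) := pw_pol (finrank K M) δ hδ P e he2 Y
    have g5 := hR3 X₀ hpw g2
    -- the conjugation
    obtain ⟨g, hg⟩ : ConjP K W (B.W v) :=
      (h2 p K M₁ B.S).2.2.2.2.2.2 v (B.W v) W hWv hW
    obtain ⟨i, hi, hgi⟩ := exists_pow δ hord
      (AlgEquiv.restrictNormalHom (F := K) (K₁ := M₁) M g⁻¹)
    have hc : ∀ t : M, (g⁻¹ : M₁ ≃ₐ[K] M₁) (algebraMap M M₁ t) =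
        algebraMap M M₁ ((δ ^ i : M ≃ₐ[K] M) t) := by
      intro t
      rw [hgi]
      exact (AlgEquiv.restrictNormal_commutes (g⁻¹ : M₁ ≃ₐ[K] M₁) M t).symm
    have hXU : X₀ ∈ Uv K v := by
      rw [hX₀]
      apply pol_mem_Uv
      rw [hY]
      refine Subgroup.mul_mem _ (Subgroup.prod_mem _ fun i _ => pol_mem_Uv (huS i v hvS) _ _)
        (Subgroup.prod_mem _ fun q hq => pol_mem_Uv (hzU q (hD q hq).1 v hvS ?_) _ _)
      rintro rfl
      exact hvD hq
    have hord0 : ordv (B.W v) ((inc M M₁ (act (δ ^ i) X₀) : M₁ˣ) : M₁) = 0 := by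
      show ordv (B.W v) (algebraMap M M₁ ((act (δ ^ i) X₀ : Mˣ) : M)) = 0
      rw [ord_of_unr hWv hWw (B.unr v hvS (B.W v) hWv)]
      exact act_mem_Uv hXU (δ ^ i) (B.w v) hwv
    have g7 := (h4 p K M K₁ M₁ ε hT δ P B v hv).2.2 (inc M M₁ (act (δ ^ i) X₀))
      (by rw [hord0]; exact dvd_zero _)
    have g8 : LocPow p (B.W v) ((inc M M₁ (act (δ ^ i) X₀) : M₁ˣ) : M₁) := g7.1 (g5 i)
    have g9 : ((inc M M₁ (act (δ ^ i) X₀) : M₁ˣ) : M₁) =
        (g⁻¹ : M₁ ≃ₐ[K] M₁) (algebraMap M M₁ (X₀ : M)) := (hc _).symm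
    rw [g9, ← locPow_conj g hg] at g8
    have g10 : g ((g⁻¹ : M₁ ≃ₐ[K] M₁) (algebraMap M M₁ (X₀ : M))) = algebraMap M M₁ (X₀ : M) :=
      g.apply_symm_apply _
    rwa [g10] at g8

end Pool.Agent.Helper74.PP
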