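import Pool.Agent.Helper17.PP.GoalsC1

/-!
# Project PP, part C, packet C_OSC: the weak condition at `q`
-/

namespace Pool.Agent.Helper74.PP

open Finset Pool.Agent.Helper17.PP

open Classical in
theorem sum_ind (hlab : C_LAB) {B k : Type} [Field k] [Fintype k] (ψ : AddChar k ℂ) (hψ : ψ ≠ 1)
    (P D : Finset B) (hD : D ⊆ P) (r : B → k) :
    ∑ y ∈ lab k P, ∏ q' ∈ D, ψ (y q' * r q') =
      if ∀ q' ∈ D, r q' = 0 then ((lab k P).card : ℂ) else 0 := by
  split_ifs with h
  · have h1 : ∀ y ∈ lab k P, ∏ q' ∈ D, ψ (y q' * r q') = 1 := by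
      intro y _
      apply Finset.prod_eq_one
      intro q' hq'
      rw [h q' hq', mul_zero, AddChar.map_zero_eq_one]
    rw [Finset.sum_congr rfl h1, Finset.sum_const, nsmul_eq_mul, mul_one]
  · push Not at h
    obtain ⟨q₁, hq₁, hr⟩ := h
    obtain ⟨a, ha⟩ : ∃ a, ψ a ≠ 1 := by
      by_contra hcon
      push Not at hcon
      exact hψ (by
        ext a
        simp [hcon a])
    obtain ⟨-, -, h3, -, -⟩ := hlab B k P
    refine h3 _ (ψ a) ha (Pi.single q₁ (a / r q₁)) ?_ ?_
    · rw [mem_lab]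
      intro q hq
      rw [Pi.single_apply, if_neg]
      rintro rfl
      exact hq (hD hq₁)
    · intro f _
      have h4 : ∀ q' ∈ D, ψ ((f + Pi.single q₁ (a / r q₁) : B → k) q' * r q') =
          ψ (f q' * r q') * (if q' = q₁ then ψ a else 1) := by
        intro q' _
        rw [Pi.add_apply, add_mul, AddChar.map_add_eq_mul]
        congr 1
        by_cases h : q' = q₁
        · subst h
          rw [Pi.single_eq_same, if_pos rfl, div_mul_cancel₀ _ hr]
        · rw [Pi.single_eq_of_ne h, if_neg h, zero_mul, AddChar.map_zero_eq_one]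
      rw [Finset.prod_congr rfl h4, Finset.prod_mul_distrib, Finset.prod_ite_eq', if_pos hq₁,
        mul_comm]

section

variable {p : ℕ} {B B₀ k U Λ C : Type} [Field k] [Fintype k] [AddCommGroup U] [Module k U]
    [AddCommGroup Λ] [Module k Λ] [AddCommGroup C] (S : Sys p B B₀ k U Λ C)

theorem rs_sub {b : Finset B} {q : B} : S.rs b q ⊆ b := by
  classical
  intro x hx
  rw [Sys.rs, mem_filter] at hx
  exact Finset.mem_of_mem_erase hx.1

theorem notMem_rs {b : Finset B} {q : B} : q ∉ S.rs b q := by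
  classical
  intro h
  rw [Sys.rs, mem_filter] at h
  exact lt_irrefl _ h.2.2

open Classical in
theorem sum_trc (hlab : C_LAB) (P b : Finset B) (q : B) (hb : b ⊆ P) (hq : q ∈ b)
    (G : (B → k) → ℂ) :
    ∑ c ∈ lab k b with (c q ≠ 0 ∧ ∀ q', c q' ≠ 0 → q' = q ∨ q' ∈ S.rs b q), G c =
      ∑ t : k with t ≠ 0, ((Fintype.card k : ℂ) ^ (S.rs b q).card / ((lab k P).card : ℂ)) *
        ∑ c ∈ lab k P, G (S.trc b q t c) := by
  have hrsb : S.rs b q ⊆ b := rs_sub S
  have hrs : S.rs b q ⊆ P := hrsb.trans hb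
  have hqrs : q ∉ S.rs b q := notMem_rs S
  have h5 := (hlab B k P).2.2.2.2
  have h1 := (hlab B k P).1
  have key : ∀ t : k, ((Fintype.card k : ℂ) ^ (S.rs b q).card / ((lab k P).card : ℂ)) *
      ∑ c ∈ lab k P, G (S.trc b q t c) = ∑ g ∈ lab k (S.rs b q), G (S.trc b q t g) := by
    intro t
    have h2 := h5 (fun c => G (S.trc b q t c)) (fun c => G (S.trc b q t c)) (S.rs b q) hrs (by
      intro f _ g _ hfg
      have h3 : S.trc b q t f = S.trc b q t g := by
        funext q'
        unfold Sys.trc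
        split_ifs with c1 c2
        · rfl
        · exact hfg _ c2
        · rfl
      change G (S.trc b q t f) = G (S.trc b q t g)
      rw [h3])
    rw [div_mul_eq_mul_div, h2, h1]
    push_cast
    rw [mul_div_cancel_left₀]
    exact pow_ne_zero _ (Nat.cast_ne_zero.mpr Fintype.card_ne_zero)
  rw [Finset.sum_congr rfl (fun t _ => key t), ← Finset.sum_product']
  symm
  refine Finset.sum_bij' (fun z _ => S.trc b q z.1 z.2)
    (fun c _ => (c q, fun q' => if q' ∈ S.rs b q then c q' else 0)) ?_ ?_ ?_ ?_ ?_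
  · rintro ⟨t, g⟩ hz
    rw [mem_product, mem_filter] at hz
    obtain ⟨⟨-, ht⟩, hg⟩ := hz
    rw [mem_filter, mem_lab]
    refine ⟨?_, ?_, ?_⟩
    · intro q' hq'
      change (if q' = q then t else if q' ∈ S.rs b q then g q' else 0) = 0
      rw [if_neg (fun h : q' = q => hq' (h ▸ hq)), if_neg (fun h => hq' (hrsb h))]
    · change (if q = q then t else if q ∈ S.rs b q then g q else 0) ≠ 0
      rw [if_pos rfl]
      exact ht
    · intro q' hq'
      change (if q' = q then t else if q' ∈ S.rs b q then g q' else 0) ≠ 0 at hq'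
      by_cases c1 : q' = q
      · exact Or.inl c1
      · rw [if_neg c1] at hq'
        by_cases c2 : q' ∈ S.rs b q
        · exact Or.inr c2
        · rw [if_neg c2] at hq'
          exact absurd rfl hq'
  · intro c hc
    rw [mem_filter, mem_lab] at hc
    rw [mem_product, mem_filter]
    refine ⟨⟨mem_univ _, hc.2.1⟩, ?_⟩
    rw [mem_lab]
    intro q' hq'
    exact if_neg hq'
  · rintro ⟨t, g⟩ hz
    rw [mem_product, mem_filter] at hz
    obtain ⟨⟨-, ht⟩, hg⟩ := hz
    rw [mem_lab] at hg
    apply Prod.ext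
    · change (if q = q then t else if q ∈ S.rs b q then g q else 0) = t
      rw [if_pos rfl]
    · funext q'
      change (if q' ∈ S.rs b q then (if q' = q then t else if q' ∈ S.rs b q then g q' else 0)
        else 0) = g q'
      by_cases c2 : q' ∈ S.rs b q
      · rw [if_pos c2, if_neg (fun h : q' = q => hqrs (h ▸ c2)), if_pos c2]
      · rw [if_neg c2]
        exact (hg q' c2).symm
  · intro c hc
    rw [mem_filter, mem_lab] at hc
    funext q'
    change (if q' = q then c q else if q' ∈ S.rs b q then (if q' ∈ S.rs b q then c q' else 0)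
      else 0) = c q'
    by_cases c1 : q' = q
    · rw [if_pos c1, c1]
    · rw [if_neg c1]
      by_cases c2 : q' ∈ S.rs b q
      · rw [if_pos c2, if_pos c2]
      · rw [if_neg c2]
        by_contra hcon
        rcases hc.2.2 q' (fun h => hcon h.symm) with h | h
        · exact c1 h
        · exact c2 h
  · intro z _
    rfl

variable [Algebra (ZMod p) k]

open Classical in
theorem sum_isPre [Fintype U] (hlab : C_LAB) (E : ℕ) (P b : Finset B) (q : B) (hb : b ⊆ P)
    (hq : q ∈ b) (V : U → (B → k) → ℝ) (hV : ∀ x c, V x c ≠ 0 → S.IsPre E b q x c) :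
    ∑ x : U, ∑ c ∈ lab k b, V x c =
      ∑ x : U, ∑ t : k with t ≠ 0,
        ((Fintype.card k : ℝ) ^ (S.rs b q).card / ((lab k P).card : ℝ)) *
        ∑ c ∈ lab k P, V x (S.trc b q t c) := by
  apply Finset.sum_congr rfl
  intro x _
  have h1 := sum_trc S hlab P b q hb hq (fun c => (V x c : ℂ))
  have h2 : ∑ c ∈ lab k b with (c q ≠ 0 ∧ ∀ q', c q' ≠ 0 → q' = q ∨ q' ∈ S.rs b q),
      (V x c : ℂ) = ∑ c ∈ lab k b, (V x c : ℂ) := by
    apply Finset.sum_filter_of_ne
    intro c _ hc
    have h3 := hV x c (by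
      intro h
      apply hc
      rw [h, Complex.ofReal_zero])
    exact ⟨h3.ne, h3.supp⟩
  rw [h2] at h1
  apply Complex.ofReal_injective
  rw [Complex.ofReal_sum, h1, Complex.ofReal_sum]
  apply Finset.sum_congr rfl
  intro t _
  push_cast
  rfl

theorem isPre_trc_iff (E : ℕ) (b : Finset B) (q : B) (hth : S.bl q ≤ th E (S.bl q)) (x : U)
    (t : k) (ht : t ≠ 0) (c : B → k) :
    S.IsPre E b q x (S.trc b q t c) ↔
      (S.lam₀ x + ∑ q' ∈ b, S.lam q' (S.trc b q t c q') = 0 ∧
          ∀ q' ∈ S.rt E b q, S.R b x (S.trc b q t c) q' = 0) ∧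
        ∀ q' ∈ S.rs b q, S.R b x (S.trc b q t c) q' = 0 := by
  classical
  constructor
  · intro h
    refine ⟨⟨h.lam, ?_⟩, ?_⟩
    · intro q' hq'
      apply h.loc
      rw [Sys.rt, mem_filter] at hq'
      rw [Sys.rg, mem_filter]
      exact ⟨hq'.1, hq'.2.1, hq'.2.2.1.ne', hq'.2.2.2⟩
    · intro q' hq'
      apply h.loc
      rw [Sys.rs, mem_filter] at hq'
      rw [Sys.rg, mem_filter]
      exact ⟨hq'.1, hq'.2.1, hq'.2.2.ne, hq'.2.2.le.trans hth⟩
  · rintro ⟨⟨h1, h2⟩, h3⟩
    refine ⟨?_, ?_, h1, ?_⟩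
    · intro q' hq'
      change (if q' = q then t else if q' ∈ S.rs b q then c q' else 0) ≠ 0 at hq'
      by_cases c1 : q' = q
      · exact Or.inl c1
      · rw [if_neg c1] at hq'
        by_cases c2 : q' ∈ S.rs b q
        · exact Or.inr c2
        · rw [if_neg c2] at hq'
          exact absurd rfl hq'
    · change (if q = q then t else if q ∈ S.rs b q then c q else 0) ≠ 0
      rw [if_pos rfl]
      exact ht
    · intro q' hq'
      rw [Sys.rg, mem_filter] at hq'
      rcases lt_or_gt_of_ne hq'.2.2.1 with h | h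
      · apply h3
        rw [Sys.rs, mem_filter]
        exact ⟨hq'.1, hq'.2.1, h⟩
      · apply h2
        rw [Sys.rt, mem_filter]
        exact ⟨hq'.1, hq'.2.1, h, hq'.2.2.2⟩

open Classical in
/-- The expression for the oscillating part. -/
theorem osc_eq [Fact p.Prime] [Fintype U] (hlab : C_LAB) (ψ : AddChar k ℂ)
    (ψ₁ : AddChar (ZMod p) ℂ) (hψ : ψ ≠ 1) (E : ℕ) (P b : Finset B) (q : B) (hb : b ⊆ P)
    (hth : S.bl q ≤ th E (S.bl q)) (s : ZMod p) :
    S.osc ψ ψ₁ E P b q s = ∑ x : U, ∑ t : k with t ≠ 0,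
      (((Fintype.card k : ℝ) ^ (S.rs b q).card / ((lab k P).card : ℝ) : ℝ) : ℂ) *
        ∑ c ∈ lab k P, (if S.IsPre E b q x (S.trc b q t c) then
          (∑ w : ZMod p with t * algebraMap (ZMod p) k w = S.R b x (S.trc b q t c) q,
            ψ₁ (s * w)) else 0) := by
  have hrs : S.rs b q ⊆ P := (rs_sub S).trans hb
  have hP : ((lab k P).card : ℂ) ≠ 0 := by
    rw [(hlab B k P).1]
    push_cast
    exact pow_ne_zero _ (Nat.cast_ne_zero.mpr Fintype.card_ne_zero)
  unfold Sys.osc
  rw [Finset.mul_sum]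
  apply Finset.sum_congr rfl
  intro x _
  rw [Finset.mul_sum]
  apply Finset.sum_congr rfl
  intro t ht
  rw [mem_filter] at ht
  rw [Finset.mul_sum, Finset.mul_sum]
  apply Finset.sum_congr rfl
  intro c _
  have h1 := isPre_trc_iff S E b q hth x t ht.2 c
  by_cases c1 : S.lam₀ x + ∑ q' ∈ b, S.lam q' (S.trc b q t c q') = 0 ∧
          ∀ q' ∈ S.rt E b q, S.R b x (S.trc b q t c) q' = 0
  · rw [Finset.sum_congr rfl (fun y _ => if_pos c1), ← Finset.mul_sum,
      sum_ind hlab ψ hψ P (S.rs b q) hrs (fun q' => S.R b x (S.trc b q t c) q')]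
    by_cases c2 : ∀ q' ∈ S.rs b q, S.R b x (S.trc b q t c) q' = 0
    · rw [if_pos c2, if_pos (h1.mpr ⟨c1, c2⟩)]
      push_cast
      field_simp
    · rw [if_neg c2, if_neg (fun h => c2 (h1.mp h).2), mul_zero, mul_zero, mul_zero]
  · rw [Finset.sum_congr rfl (fun y _ => if_neg c1), Finset.sum_const_zero,
      if_neg (fun h => c1 (h1.mp h).1), mul_zero, mul_zero]

end

theorem c_osc (hlab : C_LAB) : Pool.Agent.Helper17.PP.C_OSC := by
  classical
  intro p hpF B B₀ k U Λ C _ _ _ _ _ _ _ _ _ S ψ ψ₁ hψ hψ₁ E P b q hb hq hth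
  have hp : p.Prime := hpF.out
  have hp0 : (0 : ℝ) < p := by exact_mod_cast hp.pos
  set a : ℝ := (Fintype.card k : ℝ) ^ (S.rs b q).card / ((lab k P).card : ℝ) with ha
  have ha0 : 0 ≤ a := by positivity
  -- the two counting functions
  have hc1 : (S.cnt E b q : ℝ) = ∑ x : U, ∑ t : k with t ≠ 0, a * ∑ c ∈ lab k P,
      (if S.IsPre E b q x (S.trc b q t c) then (1 : ℝ) else 0) := by
    rw [← sum_isPre S hlab E P b q hb hq (fun x c => if S.IsPre E b q x c then (1 : ℝ) else 0)
      (by
        intro x c h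
        by_contra hcon
        exact h (if_neg hcon))]
    rw [Sys.cnt, Finset.card_filter, Finset.sum_product]
    push_cast
    rfl
  have hc2 : (S.cnt₂ E b q : ℝ) = ∑ x : U, ∑ t : k with t ≠ 0, a * ∑ c ∈ lab k P,
      (if S.IsPre E b q x (S.trc b q t c) ∧ S.R b x (S.trc b q t c) q = 0 then (1 : ℝ)
        else 0) := by
    rw [← sum_isPre S hlab E P b q hb hq
      (fun x c => if S.IsPre E b q x c ∧ S.R b x c q = 0 then (1 : ℝ) else 0)
      (by
        intro x c h
        by_contra hcon
        exact h (if_neg (fun h2 => hcon h2.1)))]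
    rw [Sys.cnt₂, Finset.card_filter, Finset.sum_product]
    push_cast
    rfl
  have hosc : ∀ s : ZMod p, (S.osc ψ ψ₁ E P b q s).re = ∑ x : U, ∑ t : k with t ≠ 0,
      a * ∑ c ∈ lab k P, (if S.IsPre E b q x (S.trc b q t c) then
          (∑ w : ZMod p with t * algebraMap (ZMod p) k w = S.R b x (S.trc b q t c) q,
            ψ₁ (s * w)).re else 0) := by
    intro s
    rw [osc_eq S hlab ψ ψ₁ hψ E P b q hb hth s, Complex.re_sum]
    apply Finset.sum_congr rfl
    intro x _
    rw [Complex.re_sum]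
    apply Finset.sum_congr rfl
    intro t _
    rw [Complex.re_ofReal_mul, Complex.re_sum]
    congr 1
    apply Finset.sum_congr rfl
    intro c _
    split_ifs
    · rfl
    · rfl
  -- the pointwise identity
  have hpt : ∀ (x : U) (t : k), t ≠ 0 → ∀ c : B → k,
      (if S.IsPre E b q x (S.trc b q t c) ∧ S.R b x (S.trc b q t c) q = 0 then (1 : ℝ) else 0) ≤
        (1 / p : ℝ) * (if S.IsPre E b q x (S.trc b q t c) then (1 : ℝ) else 0) +
        (1 / p : ℝ) * ∑ s ∈ (univ : Finset (ZMod p)).erase 0,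
          (if S.IsPre E b q x (S.trc b q t c) then
          (∑ w : ZMod p with t * algebraMap (ZMod p) k w = S.R b x (S.trc b q t c) q,
            ψ₁ (s * w)).re else 0) := by
    intro x t ht c
    by_cases h1 : S.IsPre E b q x (S.trc b q t c)
    · set r := S.R b x (S.trc b q t c) q with hr
      set W : Finset (ZMod p) := univ.filter (fun w => t * algebraMap (ZMod p) k w = r) with hW
      have hprim : ψ₁.IsPrimitive := AddChar.IsPrimitive.of_ne_one hψ₁
      have hs1 : ∀ w : ZMod p, ∑ s : ZMod p, ψ₁ (s * w) = if w = 0 then (p : ℂ) else 0 := by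
        intro w
        have h2 := AddChar.sum_mulShift w hprim
        rw [h2]
        split_ifs
        · rw [ZMod.card]
        · rw [Nat.cast_zero]
      have hcardW : (W.card : ℝ) ≤ 1 := by
        have : W.card ≤ 1 := by
          rw [Finset.card_le_one]
          intro w hw w' hw'
          rw [hW, mem_filter] at hw hw'
          have h3 : algebraMap (ZMod p) k w = algebraMap (ZMod p) k w' :=
            mul_left_cancel₀ ht (hw.2.trans hw'.2.symm)
          exact (algebraMap (ZMod p) k).injective h3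
        exact_mod_cast this
      have hsum : ∑ s : ZMod p, ∑ w ∈ W, ψ₁ (s * w) = if r = 0 then (p : ℂ) else 0 := by
        rw [Finset.sum_comm, Finset.sum_congr rfl (fun w _ => hs1 w), Finset.sum_ite_eq']
        have h4 : (0 : ZMod p) ∈ W ↔ r = 0 := by
          rw [hW, mem_filter, map_zero, mul_zero]
          constructor
          · intro h
            exact h.2.symm
          · intro h
            exact ⟨mem_univ _, h.symm⟩
        by_cases h5 : r = 0
        · rw [if_pos h5, if_pos (h4.mpr h5)]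
        · rw [if_neg h5, if_neg (fun h => h5 (h4.mp h))]
      have hsum2 : ∑ s ∈ (univ : Finset (ZMod p)).erase 0, (∑ w ∈ W, ψ₁ (s * w)).re + W.card =
          if r = 0 then (p : ℝ) else 0 := by
        have h6 := congrArg Complex.re hsum
        rw [Complex.re_sum, ← Finset.sum_erase_add _ _ (mem_univ (0 : ZMod p))] at h6
        have h7 : (∑ w ∈ W, ψ₁ (0 * w)).re = W.card := by
          have h8 : ∀ w ∈ W, ψ₁ (0 * w) = 1 := by
            intro w _
            rw [zero_mul, AddChar.map_zero_eq_one]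
          rw [Finset.sum_congr rfl h8, Finset.sum_const, nsmul_eq_mul, mul_one]
          simp
        rw [h7] at h6
        rw [h6]
        split_ifs
        · simp
        · simp
      simp only [h1, true_and, if_true]
      have h9 : (if r = 0 then (1 : ℝ) else 0) = (1 / p : ℝ) * (if r = 0 then (p : ℝ) else 0) := by
        split_ifs
        · field_simp
        · ring
      rw [h9, ← hsum2, mul_add, add_comm]
      have h10 : (1 / p : ℝ) * (W.card : ℝ) ≤ (1 / p : ℝ) * 1 :=
        mul_le_mul_of_nonneg_left hcardW (by positivity)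
      linarith
    · rw [if_neg (fun h => h1 h.1), if_neg h1]
      simp only [h1, if_false, Finset.sum_const_zero]
      simp
  -- the end
  rw [hc2, hc1, Finset.sum_congr rfl (fun s _ => hosc s)]
  have hmain : ∑ x : U, ∑ t : k with t ≠ 0, a * ∑ c ∈ lab k P,
      (if S.IsPre E b q x (S.trc b q t c) ∧ S.R b x (S.trc b q t c) q = 0 then (1 : ℝ)
        else 0) ≤ ∑ x : U, ∑ t : k with t ≠ 0, a * ∑ c ∈ lab k P,
        ((1 / p : ℝ) * (if S.IsPre E b q x (S.trc b q t c) then (1 : ℝ) else 0) +
        (1 / p : ℝ) * ∑ s ∈ (univ : Finset (ZMod p)).erase 0,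
          (if S.IsPre E b q x (S.trc b q t c) then
          (∑ w : ZMod p with t * algebraMap (ZMod p) k w = S.R b x (S.trc b q t c) q,
            ψ₁ (s * w)).re else 0)) := by
    apply Finset.sum_le_sum
    intro x _
    apply Finset.sum_le_sum
    intro t ht
    rw [mem_filter] at ht
    apply mul_le_mul_of_nonneg_left _ ha0
    apply Finset.sum_le_sum
    intro c _
    exact hpt x t ht.2 c
  refine hmain.trans (le_of_eq ?_)
  rw [Finset.mul_sum, Finset.sum_comm (s := (univ : Finset (ZMod p)).erase 0), Finset.mul_sum,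
    ← Finset.sum_add_distrib]
  apply Finset.sum_congr rfl
  intro x _
  rw [Finset.mul_sum, Finset.sum_comm (s := (univ : Finset (ZMod p)).erase 0), Finset.mul_sum,
    ← Finset.sum_add_distrib]
  apply Finset.sum_congr rfl
  intro t _
  rw [← Finset.mul_sum, Finset.sum_comm (s := (univ : Finset (ZMod p)).erase 0),
    Finset.sum_add_distrib, ← Finset.mul_sum, ← Finset.mul_sum]
  ring

end Pool.Agent.Helper74.PP
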