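import Pool.Agent.Helper11.PP.GoalsD
import Pool.Agent.Helper90.LE.CYC

/-!
# Project PP (MP_fc6b1e_nt), packet D_CNV: every cyclic extension of degree `p` comes from an `a`
-/

namespace Pool.Agent.Helper74.PP

open NumberField Polynomial Module IsDedekindDomain TensorProduct Pool.Agent.Helper51.SigLeo
open Pool.Agent.Helper51.RP Pool.Agent.Helper42.RD Pool.Agent.Helper11.LE Pool.Agent.Helper11.PP

section

variable {p : ℕ} [hpF : Fact p.Prime] {K K₁ : Type} [Field K] [NumberField K] [Field K₁]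
  [NumberField K₁] [Algebra K K₁]

/-- An element fixed by all the automorphisms which fix `j(K₁)` is in `j(K₁)`. -/
theorem mem_range_of_fixed (jA : K₁ →ₐ[K] AlgebraicClosure K) (y : AlgebraicClosure K)
    (h : ∀ g : AlgebraicClosure K ≃ₐ[K] AlgebraicClosure K, (∀ x : K₁, g (jA x) = jA x) →
      g y = y) :
    ∃ c : K₁, jA c = y := by
  haveI : IsGalois K (AlgebraicClosure K) := inferInstance
  have h1 : y ∈ IntermediateField.fixedField (jA.fieldRange.fixingSubgroup) := by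
    rw [IntermediateField.mem_fixedField_iff]
    intro g hg
    apply h
    intro x
    rw [IntermediateField.mem_fixingSubgroup_iff] at hg
    exact hg (jA x) ⟨x, rfl⟩
  rw [InfiniteGalois.fixedField_fixingSubgroup] at h1
  obtain ⟨c, hc⟩ := h1
  exact ⟨c, hc⟩

/-- There is an automorphism fixing `j(K₁)` and not `N`. -/
theorem exists_sigma (jA : K₁ →ₐ[K] AlgebraicClosure K)
    (N : IntermediateField K (AlgebraicClosure K)) (hN : finrank K N = p)
    (hco : (finrank K K₁).Coprime p) :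
    ∃ σ : AlgebraicClosure K ≃ₐ[K] AlgebraicClosure K, (∀ x : K₁, σ (jA x) = jA x) ∧
      ∃ y ∈ N, σ y ≠ y := by
  by_contra hcon
  push Not at hcon
  have hle : N ≤ jA.fieldRange := by
    intro y hy
    obtain ⟨c, hc⟩ := mem_range_of_fixed jA y (fun g hg => hcon g hg y hy)
    exact ⟨c, hc⟩
  have hd := IntermediateField.finrank_dvd_of_le_right hle
  have he : finrank K jA.fieldRange = finrank K K₁ :=
    (LinearEquiv.finrank_eq (AlgEquiv.ofInjectiveField jA).toLinearEquiv).symm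
  rw [hN, he] at hd
  exact hpF.out.one_lt.ne' (Nat.Coprime.eq_one_of_dvd hco.symm hd)

/-- Normality: `N` is stable. -/
theorem stable (N : IntermediateField K (AlgebraicClosure K)) (hG : IsGalois K N)
    (g : AlgebraicClosure K ≃ₐ[K] AlgebraicClosure K) {y : AlgebraicClosure K} (hy : y ∈ N) :
    g y ∈ N := by
  haveI := hG
  have h := AlgEquiv.restrictNormalHom_apply N g ⟨y, hy⟩
  change _ = g y at h
  rw [← h]
  exact SetLike.coe_mem _

/-- Every automorphism is a power of `σ` on `N`. -/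
theorem exists_pow (N : IntermediateField K (AlgebraicClosure K)) (hN : finrank K N = p)
    (hG : IsGalois K N) (σ : AlgebraicClosure K ≃ₐ[K] AlgebraicClosure K)
    (hσ : ∃ y ∈ N, σ y ≠ y) (g : AlgebraicClosure K ≃ₐ[K] AlgebraicClosure K) :
    ∃ k : ℕ, ∀ y ∈ N, g y = (σ ^ k) y := by
  haveI := hG
  haveI : FiniteDimensional K N := FiniteDimensional.of_finrank_pos (by
    rw [hN]
    exact hpF.out.pos)
  have hcard : Nat.card (N ≃ₐ[K] N) = p := by rw [IsGalois.card_aut_eq_finrank, hN]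
  have h1 : AlgEquiv.restrictNormalHom (F := K) (K₁ := AlgebraicClosure K) N σ ≠ 1 := by
    intro h
    obtain ⟨y, hy, hne⟩ := hσ
    apply hne
    have h2 := AlgEquiv.restrictNormalHom_apply N σ ⟨y, hy⟩
    rw [h] at h2
    exact h2.symm
  obtain ⟨k, hk⟩ := mem_powers_of_prime_card hcard h1
    (g' := AlgEquiv.restrictNormalHom (F := K) (K₁ := AlgebraicClosure K) N g)
  refine ⟨k, fun y hy => ?_⟩
  have h3 := AlgEquiv.restrictNormalHom_apply N g ⟨y, hy⟩
  have h4 := AlgEquiv.restrictNormalHom_apply N (σ ^ k) ⟨y, hy⟩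
  change _ = g y at h3
  change _ = (σ ^ k) y at h4
  rw [← h3, ← h4, map_pow]
  exact congrArg (fun f : N ≃ₐ[K] N => ((f ⟨y, hy⟩ : N) : AlgebraicClosure K)) hk.symm

/-- `σ^m` is trivial on `N` iff `p ∣ m`. -/
theorem pow_triv_iff (N : IntermediateField K (AlgebraicClosure K)) (hN : finrank K N = p)
    (hG : IsGalois K N) (σ : AlgebraicClosure K ≃ₐ[K] AlgebraicClosure K)
    (hσ : ∃ y ∈ N, σ y ≠ y) (m : ℕ) :
    (∀ y ∈ N, (σ ^ m) y = y) ↔ p ∣ m := by
  haveI := hG
  haveI : FiniteDimensional K N := FiniteDimensional.of_finrank_pos (by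
    rw [hN]
    exact hpF.out.pos)
  have hcard : Nat.card (N ≃ₐ[K] N) = p := by rw [IsGalois.card_aut_eq_finrank, hN]
  set f := AlgEquiv.restrictNormalHom (F := K) (K₁ := AlgebraicClosure K) N σ with hf
  have h1 : f ≠ 1 := by
    intro h
    obtain ⟨y, hy, hne⟩ := hσ
    apply hne
    have h2 := AlgEquiv.restrictNormalHom_apply N σ ⟨y, hy⟩
    rw [← hf, h] at h2
    exact h2.symm
  have h5 : orderOf f = p := by
    apply orderOf_eq_prime _ h1
    rw [← hcard]
    exact pow_card_eq_one'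
  rw [← h5, orderOf_dvd_iff_pow_eq_one, hf, ← map_pow]
  constructor
  · intro h
    apply AlgEquiv.ext
    intro y
    apply Subtype.ext
    rw [AlgEquiv.restrictNormalHom_apply]
    exact h y y.2
  · intro h y hy
    have h4 := AlgEquiv.restrictNormalHom_apply N (σ ^ m) ⟨y, hy⟩
    rw [h] at h4
    exact h4.symm

/-- The Lagrange resolvent. -/
theorem exists_resolvent (N : IntermediateField K (AlgebraicClosure K)) (hN : finrank K N = p)
    (hG : IsGalois K N) (σ : AlgebraicClosure K ≃ₐ[K] AlgebraicClosure K)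
    (hσ : ∃ y ∈ N, σ y ≠ y) (ζ : AlgebraicClosure K) (hζ : ζ ^ p = 1) (hσζ : σ ζ = ζ) :
    ∃ s : AlgebraicClosure K, s ≠ 0 ∧
      ∀ (g : AlgebraicClosure K ≃ₐ[K] AlgebraicClosure K) (k : ℕ), g ζ = ζ →
        (∀ y ∈ N, g y = (σ ^ k) y) → g s = ζ ^ k * s := by
  have hp : p.Prime := hpF.out
  have hζ0 : ζ ≠ 0 := by
    rintro rfl
    rw [zero_pow hp.ne_zero] at hζ
    exact zero_ne_one hζ
  let χ : Fin p → (N →* AlgebraicClosure K) := fun i =>
    ((((σ ^ (i : ℕ) : AlgebraicClosure K ≃ₐ[K] AlgebraicClosure K) :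
      AlgebraicClosure K →ₐ[K] AlgebraicClosure K) : AlgebraicClosure K →+* AlgebraicClosure K) :
      AlgebraicClosure K →* AlgebraicClosure K).comp
      ((N.val : N →+* AlgebraicClosure K) : N →* AlgebraicClosure K)
  have hχ : ∀ i y, χ i y = (σ ^ (i : ℕ)) (y : AlgebraicClosure K) := fun _ _ => rfl
  have haux : ∀ i j : ℕ, i ≤ j → (∀ y ∈ N, (σ ^ i) y = (σ ^ j) y) → p ∣ j - i := by
    intro i j hij h
    rw [← pow_triv_iff N hN hG σ hσ]
    intro y hy
    have h1 := h y hy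
    have h2 : (σ ^ j) y = (σ ^ i) ((σ ^ (j - i)) y) := by
      rw [← AlgEquiv.mul_apply, ← pow_add, Nat.add_sub_cancel' hij]
    rw [h2] at h1
    exact ((σ ^ i).injective h1).symm
  have hinj : Function.Injective χ := by
    intro i j hij
    have h1 : ∀ y ∈ N, (σ ^ (i : ℕ)) y = (σ ^ (j : ℕ)) y := by
      intro y hy
      have := congrArg (fun f : N →* AlgebraicClosure K => f ⟨y, hy⟩) hij
      exact this
    apply Fin.ext
    rcases le_total (i : ℕ) j with hle | hle
    · have h2 := haux _ _ hle h1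
      have h3 : (j : ℕ) - i < p := lt_of_le_of_lt (Nat.sub_le _ _) j.2
      have h4 := Nat.eq_zero_of_dvd_of_lt h2 h3
      omega
    · have h2 := haux _ _ hle (fun y hy => (h1 y hy).symm)
      have h3 : (i : ℕ) - j < p := lt_of_le_of_lt (Nat.sub_le _ _) i.2
      have h4 := Nat.eq_zero_of_dvd_of_lt h2 h3
      omega
  have hli : LinearIndependent (AlgebraicClosure K)
      (fun i : Fin p => (χ i : N → AlgebraicClosure K)) :=
    (linearIndependent_monoidHom N (AlgebraicClosure K)).comp χ hinj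
  rw [Fintype.linearIndependent_iff] at hli
  have hex : ∃ θ : N, ∑ i : Fin p, (ζ⁻¹) ^ (i : ℕ) * (σ ^ (i : ℕ)) (θ : AlgebraicClosure K) ≠ 0 := by
    by_contra hcon
    push Not at hcon
    have h1 := hli (fun i => (ζ⁻¹) ^ (i : ℕ)) (by
      funext θ
      rw [Finset.sum_apply]
      exact hcon θ) ⟨0, hp.pos⟩
    rw [pow_zero] at h1
    exact one_ne_zero h1
  obtain ⟨θ, hθ⟩ := hex
  let F : ℕ → AlgebraicClosure K := fun i => (ζ⁻¹) ^ i * (σ ^ i) (θ : AlgebraicClosure K)
  have hFp : F p = F 0 := by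
    have h1 := (pow_triv_iff N hN hG σ hσ p).mpr dvd_rfl θ θ.2
    change (ζ⁻¹) ^ p * (σ ^ p) (θ : AlgebraicClosure K) = (ζ⁻¹) ^ 0 * (σ ^ 0) (θ : AlgebraicClosure K)
    rw [h1, inv_pow, hζ, inv_one, pow_zero, pow_zero]
    rfl
  have hs : ∑ i : Fin p, (ζ⁻¹) ^ (i : ℕ) * (σ ^ (i : ℕ)) (θ : AlgebraicClosure K) =
      ∑ i ∈ Finset.range p, F i := by
    rw [Finset.sum_range]
  rw [hs] at hθ
  have hshift : ∑ i ∈ Finset.range p, F (i + 1) = ∑ i ∈ Finset.range p, F i := by
    have h1 := Finset.sum_range_succ F p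
    have h2 := Finset.sum_range_succ' F p
    rw [h1, hFp] at h2
    exact (add_right_cancel h2).symm
  have hσs : σ (∑ i ∈ Finset.range p, F i) = ζ * ∑ i ∈ Finset.range p, F i := by
    rw [map_sum]
    conv_rhs => rw [← hshift]
    rw [Finset.mul_sum]
    apply Finset.sum_congr rfl
    intro i _
    change σ ((ζ⁻¹) ^ i * (σ ^ i) (θ : AlgebraicClosure K)) =
      ζ * ((ζ⁻¹) ^ (i + 1) * (σ ^ (i + 1)) (θ : AlgebraicClosure K))
    rw [map_mul, map_pow, map_inv₀, hσζ, pow_succ' σ, AlgEquiv.mul_apply, ← mul_assoc]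
    congr 1
    rw [pow_succ', ← mul_assoc, mul_inv_cancel₀ hζ0, one_mul]
  have hσk : ∀ k : ℕ, (σ ^ k) ζ = ζ ∧
      (σ ^ k) (∑ i ∈ Finset.range p, F i) = ζ ^ k * ∑ i ∈ Finset.range p, F i := by
    intro k
    induction k with
    | zero =>
      rw [pow_zero, pow_zero, one_mul]
      exact ⟨rfl, rfl⟩
    | succ k ih =>
      rw [pow_succ', AlgEquiv.mul_apply, AlgEquiv.mul_apply, ih.1, ih.2, map_mul, map_pow, hσζ, hσs]
      refine ⟨rfl, ?_⟩
      ring
  refine ⟨∑ i ∈ Finset.range p, F i, hθ, ?_⟩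
  intro g k hgζ hgN
  rw [← (hσk k).2, map_sum, map_sum]
  apply Finset.sum_congr rfl
  intro i _
  change g ((ζ⁻¹) ^ i * (σ ^ i) (θ : AlgebraicClosure K)) =
    (σ ^ k) ((ζ⁻¹) ^ i * (σ ^ i) (θ : AlgebraicClosure K))
  rw [map_mul, map_mul, map_pow, map_pow, map_inv₀, map_inv₀, hgζ, (hσk k).1,
    hgN _ (stable N hG (σ ^ i) θ.2)]

/-- Extension of the automorphisms of `K₁`. -/
theorem exists_lift (jA : K₁ →ₐ[K] AlgebraicClosure K) (τ : K₁ ≃ₐ[K] K₁) :
    ∃ g : AlgebraicClosure K ≃ₐ[K] AlgebraicClosure K, ∀ x : K₁, g (jA x) = jA (τ x) := by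
  let e : K₁ ≃ₐ[K] jA.fieldRange := AlgEquiv.ofInjectiveField jA
  have he : ∀ x, ((e x : jA.fieldRange) : AlgebraicClosure K) = jA x := fun _ => rfl
  let χ : jA.fieldRange ≃ₐ[K] jA.fieldRange := (e.symm.trans τ).trans e
  refine ⟨χ.liftNormal (AlgebraicClosure K), fun x => ?_⟩
  have h := χ.liftNormal_commutes (AlgebraicClosure K) (e x)
  change (χ.liftNormal (AlgebraicClosure K)) (jA x) = ((χ (e x) : jA.fieldRange) : AlgebraicClosure K) at h
  rw [h]
  change ((e (τ (e.symm (e x))) : jA.fieldRange) : AlgebraicClosure K) = jA (τ x)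
  rw [AlgEquiv.symm_apply_apply]
  rfl

end

theorem d_cnv : Pool.Agent.Helper11.PP.D_CNV := by
  intro p hpF K K₁ _ _ _ _ _ ε hC j hj N hN
  have hp : p.Prime := hpF.out
  haveI : NeZero p := ⟨hp.ne_zero⟩
  obtain ⟨hNp, hNG⟩ := hN
  have hco : (finrank K K₁).Coprime p := (Pool.Agent.Helper90.LE.l_cyc p K K₁ ε hC).2.1
  let jA : K₁ →ₐ[K] AlgebraicClosure K := { j with commutes' := hj }
  have hjA : ∀ x, jA x = j x := fun _ => rfl
  obtain ⟨σ, hσj, hσN⟩ := exists_sigma jA N hNp hco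
  have hζ : (j ε) ^ p = 1 := by rw [← map_pow, hC.prim.pow_eq_one, map_one]
  have hζP : IsPrimitiveRoot (j ε) p := hC.prim.map_of_injective j.injective
  have hζ0 : j ε ≠ 0 := hζP.ne_zero hp.ne_zero
  obtain ⟨s, hs0, hs⟩ := exists_resolvent N hNp hNG σ hσN (j ε) hζ (hσj ε)
  have hfix : ∀ g : AlgebraicClosure K ≃ₐ[K] AlgebraicClosure K, (∀ x : K₁, g (jA x) = jA x) →
      ∃ k : ℕ, (∀ y ∈ N, g y = (σ ^ k) y) ∧ g s = (j ε) ^ k * s := by
    intro g hg
    obtain ⟨k, hk⟩ := exists_pow N hNp hNG σ hσN g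
    exact ⟨k, hk, hs g k (hg ε) hk⟩
  -- the element `a`
  obtain ⟨a₀, ha₀⟩ := mem_range_of_fixed jA (s ^ p) (by
    intro g hg
    obtain ⟨k, -, hk⟩ := hfix g hg
    rw [map_pow, hk, mul_pow, ← pow_mul, mul_comm k p, pow_mul, hζ, one_pow, one_mul])
  have ha₀0 : a₀ ≠ 0 := by
    rintro rfl
    rw [map_zero] at ha₀
    exact pow_ne_zero p hs0 ha₀.symm
  have hroot : ∀ s' : AlgebraicClosure K, s' ^ p = s ^ p → ∃ i : ℕ, s' = (j ε) ^ i * s := by
    intro s' h
    have h1 : (s' / s) ^ p = 1 := by rw [div_pow, h, div_self (pow_ne_zero p hs0)]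
    obtain ⟨i, -, hi⟩ := hζP.eq_pow_of_pow_eq_one h1
    refine ⟨i, ?_⟩
    rw [hi, div_mul_cancel₀ _ hs0]
  refine ⟨Units.mk0 a₀ ha₀0, ?_, ?_, ?_⟩
  · intro τ
    obtain ⟨n, -, hn⟩ := hC.prim.eq_pow_of_pow_eq_one (ξ := τ ε) (by
      rw [← map_pow, hC.prim.pow_eq_one, map_one])
    obtain ⟨τ', hτ'⟩ := exists_lift jA τ
    have hτζ : τ' (j ε) = (j ε) ^ n := by
      have h1 := hτ' ε
      rw [← hn, map_pow] at h1
      exact h1
    obtain ⟨b, hb⟩ := exists_pow N hNp hNG σ hσN τ'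
    obtain ⟨c, hc⟩ := mem_range_of_fixed jA (τ' s / s ^ n) (by
      intro g hg
      obtain ⟨k, hk, hgs⟩ := hfix g hg
      have h2 : (τ'⁻¹ * g * τ') s = (j ε) ^ k * s := by
        apply hs
        · rw [AlgEquiv.mul_apply, AlgEquiv.mul_apply, hτζ, map_pow]
          have h3 : g (j ε) = j ε := hg ε
          rw [h3, ← hτζ]
          exact τ'.symm_apply_apply _
        · intro y hy
          rw [AlgEquiv.mul_apply, AlgEquiv.mul_apply]
          apply τ'.injective
          have h4 : τ' (τ'⁻¹ (g (τ' y))) = g (τ' y) := τ'.apply_symm_apply _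
          rw [h4, hb y hy, hk _ (stable N hNG _ hy), hb _ (stable N hNG _ hy),
            ← AlgEquiv.mul_apply, ← AlgEquiv.mul_apply, ← pow_add, ← pow_add, add_comm]
      have h5 : g (τ' s) = τ' ((j ε) ^ k * s) := by
        rw [← h2, AlgEquiv.mul_apply, AlgEquiv.mul_apply]
        exact (τ'.apply_symm_apply _).symm
      rw [map_div₀, h5, map_pow, hgs, map_mul, map_pow, hτζ, mul_pow, ← pow_mul, ← pow_mul,
        mul_comm n k]
      exact mul_div_mul_left _ _ (pow_ne_zero _ hζ0))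
    refine ⟨n, c, hn.symm, ?_⟩
    apply jA.injective
    have h6 : τ' s = jA c * s ^ n := by
      rw [hc, div_mul_cancel₀ _ (pow_ne_zero _ hs0)]
    change jA (τ a₀) = jA (a₀ ^ n * c ^ p)
    rw [← hτ', ha₀, map_pow, h6, map_mul, map_pow, map_pow, ha₀, mul_pow, ← pow_mul, ← pow_mul,
      mul_comm n p, mul_comm]
  · rintro ⟨y, hy⟩
    have h1 : a₀ = (y : K₁) ^ p := by
      have := congrArg (fun u : K₁ˣ => (u : K₁)) hy
      simpa using this
    have h2 : (j (y : K₁)) ^ p = s ^ p := by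
      rw [← ha₀, h1, map_pow]
      rfl
    obtain ⟨i, hi⟩ := hroot _ h2
    have h3 : σ s = j ε * s := by
      have := hs σ 1 (hσj ε) (fun y _ => by rw [pow_one])
      rwa [pow_one] at this
    have h4 : σ (j (y : K₁)) = j (y : K₁) := hσj y
    have h5 : σ (j ε) = j ε := hσj ε
    rw [hi, map_mul, map_pow, h5, h3] at h4
    have h6 : j ε * s = s := mul_left_cancel₀ (pow_ne_zero i hζ0) h4
    have h7 : j ε = 1 := by
      have : j ε * s = 1 * s := by rw [h6, one_mul]
      exact mul_right_cancel₀ hs0 this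
    exact hζP.ne_one hp.one_lt h7
  · intro s' hs' g hgN hgj
    have h1 : s' ^ p = s ^ p := by
      rw [hs', ← ha₀]
      rfl
    obtain ⟨i, hi⟩ := hroot _ h1
    have h2 : g s = s := by
      have := hs g 0 (hgj ε) (fun y hy => by
        rw [pow_zero]
        exact hgN y hy)
      rwa [pow_zero, one_mul] at this
    rw [hi, map_mul, map_pow, hgj ε, h2]

end Pool.Agent.Helper74.PP
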