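import Pool.Agent.Helper88.PP.Goals
import Pool.Agent.Helper88.PP.FL

/-! # TL: elementary lemmas -/

set_option autoImplicit false

open Finset Filter Topology

open scoped Classical

namespace Pool.Agent.Helper74.PP

open Pool.Agent.Helper88.PP

/-- a class in an interval is an arithmetic progression -/
theorem ap_exists (u v q r : ℕ) (hq : 0 < q) (huv : u ≤ v) : ∃ a N : ℕ,
    (Ioc u v).filter (fun n => n ≡ r [MOD q]) = (range N).image (fun t => a + q * t) ∧
      |(N : ℝ) - ((v - u : ℕ) : ℝ) / q| ≤ 1 := by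
  set a := u + 1 + (r + q * (u + 1) - (u + 1)) % q with ha
  have hge : u + 1 ≤ r + q * (u + 1) := by
    have : 1 * (u + 1) ≤ q * (u + 1) := Nat.mul_le_mul_right _ hq
    omega
  have hmod : a ≡ r [MOD q] := by
    have h1 : a ≡ u + 1 + (r + q * (u + 1) - (u + 1)) [MOD q] :=
      Nat.ModEq.add_left _ (Nat.mod_modEq _ _)
    rw [show u + 1 + (r + q * (u + 1) - (u + 1)) = r + q * (u + 1) by omega] at h1
    have h2 : r + q * (u + 1) ≡ r + 0 [MOD q] :=
      Nat.ModEq.add_left _ ((Nat.modEq_zero_iff_dvd).2 (dvd_mul_right _ _))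
    rw [add_zero] at h2
    exact h1.trans h2
  have hlt : (r + q * (u + 1) - (u + 1)) % q < q := Nat.mod_lt _ hq
  have hau : u < a := by omega
  have haq : a ≤ u + q := by omega
  set N := (v + q - a) / q with hN
  have key : ∀ t, a + q * t ≤ v ↔ t < N := by
    intro t
    rw [hN, Nat.lt_iff_add_one_le, Nat.le_div_iff_mul_le hq, add_mul, mul_comm t q, one_mul]
    omega
  refine ⟨a, N, ?_, ?_⟩
  · ext n
    simp only [mem_filter, mem_Ioc, mem_image, mem_range]
    constructor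
    · rintro ⟨⟨h1, h2⟩, h3⟩
      have h4 : a ≡ n [MOD q] := hmod.trans h3.symm
      have h5 : a ≤ n := by
        by_contra hcon
        push Not at hcon
        have h6 : q ∣ a - n := (Nat.modEq_iff_dvd' hcon.le).1 h4.symm
        have h7 : q ≤ a - n := Nat.le_of_dvd (by omega) h6
        omega
      obtain ⟨t, ht⟩ := (Nat.modEq_iff_dvd' h5).1 h4
      refine ⟨t, ?_, by omega⟩
      rw [← key]
      omega
    · rintro ⟨t, ht, rfl⟩
      refine ⟨⟨by have := Nat.zero_le (q * t); omega, (key t).2 ht⟩, ?_⟩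
      have h2 : a + q * t ≡ a + 0 [MOD q] :=
        Nat.ModEq.add_left _ ((Nat.modEq_zero_iff_dvd).2 (dvd_mul_right _ _))
      exact (by rwa [add_zero] at h2 : a + q * t ≡ a [MOD q]).trans hmod
  · have hq' : (0 : ℝ) < q := by exact_mod_cast hq
    have h1 : N * q ≤ v + q - a := Nat.div_mul_le_self _ _
    have h2 : v + q - a < (N + 1) * q := by
      have := Nat.lt_div_mul_add (a := v + q - a) hq
      rw [add_mul, one_mul]
      exact this
    rw [abs_le]
    have e1 : ((v - u : ℕ) : ℝ) = (v : ℝ) - u := by push_cast [huv]; ring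
    have e2 : (N : ℝ) * q + a ≤ v + q := by
      exact_mod_cast (by omega : N * q + a ≤ v + q)
    have e3 : (v : ℝ) + q < (N + 1) * q + a := by
      have h3 : v + q < (N + 1) * q + a := by omega
      exact_mod_cast h3
    have e4 : (u : ℝ) + 1 ≤ a := by exact_mod_cast hau
    have e5 : (a : ℝ) ≤ u + q := by exact_mod_cast haq
    rw [e1]
    constructor
    · have : ((v : ℝ) - u) / q ≤ N + 1 := by
        rw [div_le_iff₀ hq']
        nlinarith
      linarith
    · have : (N : ℝ) - 1 ≤ ((v : ℝ) - u) / q := by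
        rw [le_div_iff₀ hq']
        nlinarith
      linarith

/-- Chinese remainder theorem -/
theorem crt (Q b : ℕ) (hb : b < Q) (B : Finset ℕ) (d : ℕ → ℕ)
    (hd : ∀ i ∈ B, 0 < d i) (hc : ∀ i ∈ B, Nat.Coprime Q (d i))
    (hcc : ∀ i ∈ B, ∀ j ∈ B, i ≠ j → Nat.Coprime (d i) (d j)) :
    ∃ r : ℕ, ∀ n : ℕ, (n % Q = b ∧ ∀ i ∈ B, d i ∣ n + i) ↔ n ≡ r [MOD Q * ∏ i ∈ B, d i] := by
  induction B using Finset.induction_on with
  | empty =>
    refine ⟨b, fun n => ?_⟩
    simp only [notMem_empty, false_imp_iff, implies_true, and_true, prod_empty, mul_one]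
    rw [Nat.ModEq, Nat.mod_eq_of_lt hb]
  | insert j B hj ih =>
    obtain ⟨r, hr⟩ := ih (fun i hi => hd i (mem_insert_of_mem hi))
      (fun i hi => hc i (mem_insert_of_mem hi))
      (fun i hi k hk => hcc i (mem_insert_of_mem hi) k (mem_insert_of_mem hk))
    have hdj := hd j (mem_insert_self j B)
    have hcop : Nat.Coprime (Q * ∏ i ∈ B, d i) (d j) := by
      refine Nat.Coprime.mul_left (hc j (mem_insert_self j B)) ?_
      refine Nat.Coprime.prod_left fun i hi => ?_
      exact hcc i (mem_insert_of_mem hi) j (mem_insert_self j B) (fun h => hj (h ▸ hi))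
    obtain ⟨k, hk1, hk2⟩ := Nat.chineseRemainder hcop r (d j * j - j)
    refine ⟨k, fun n => ?_⟩
    have hs : ∀ n, d j ∣ n + j ↔ n ≡ d j * j - j [MOD d j] := by
      intro n
      have hle : j ≤ d j * j := by
        have : 1 * j ≤ d j * j := Nat.mul_le_mul_right _ hdj
        omega
      rw [← Nat.modEq_zero_iff_dvd]
      constructor
      · intro h
        have h2 : n + j ≡ (d j * j - j) + j [MOD d j] := by
          rw [Nat.sub_add_cancel hle]
          exact h.trans ((Nat.modEq_zero_iff_dvd).2 (dvd_mul_right _ _)).symm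
        exact Nat.ModEq.add_right_cancel' j h2
      · intro h
        have h2 : n + j ≡ (d j * j - j) + j [MOD d j] := Nat.ModEq.add_right j h
        rw [Nat.sub_add_cancel hle] at h2
        exact h2.trans ((Nat.modEq_zero_iff_dvd).2 (dvd_mul_right _ _))
    rw [prod_insert hj, mul_comm (d j), ← mul_assoc, ← Nat.modEq_and_modEq_iff_modEq_mul hcop]
    constructor
    · rintro ⟨h1, h2⟩
      have h3 := (hr n).1 ⟨h1, fun i hi => h2 i (mem_insert_of_mem hi)⟩
      have h4 := (hs n).1 (h2 j (mem_insert_self j B))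
      exact ⟨h3.trans hk1.symm, h4.trans hk2.symm⟩
    · rintro ⟨h1, h2⟩
      have h3 := (hr n).2 (h1.trans hk1)
      refine ⟨h3.1, fun i hi => ?_⟩
      rcases mem_insert.1 hi with rfl | hi
      · exact (hs n).2 (h2.trans hk2)
      · exact h3.2 i hi

/-- number of the forbidden classes -/
theorem nu_card (p a q : ℕ) (hp : p.Prime) (hq : ¬ p ∣ q) (B : Finset ℕ)
    (hB : ∀ i ∈ B, ∀ j ∈ B, i ≡ j [MOD p] → i = j) :
    ∑ t ∈ range p, (if ∃ i ∈ B, p ∣ a + q * t + i then (1 : ℝ) else 0) = B.card := by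
  have := Fact.mk hp
  have hq0 : (q : ZMod p) ≠ 0 := fun h => hq ((ZMod.natCast_eq_zero_iff q p).1 h)
  rw [Finset.sum_ite, sum_const_zero, add_zero, Finset.sum_const, nsmul_eq_mul, mul_one]
  have h1 : (range p).filter (fun t => ∃ i ∈ B, p ∣ a + q * t + i) =
      B.image (fun i : ℕ => (-((a : ZMod p) + (i : ZMod p)) * (q : ZMod p)⁻¹).val) := by
    ext t
    simp only [mem_filter, mem_range, mem_image]
    constructor
    · rintro ⟨ht, i, hi, hd⟩
      refine ⟨i, hi, ?_⟩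
      have h2 : ((a + q * t + i : ℕ) : ZMod p) = 0 := (ZMod.natCast_eq_zero_iff _ p).2 hd
      push_cast at h2
      have h3 : (t : ZMod p) = -((a : ZMod p) + i) * (q : ZMod p)⁻¹ := by
        rw [eq_mul_inv_iff_mul_eq₀ hq0]
        linear_combination h2
      rw [← h3, ZMod.val_natCast, Nat.mod_eq_of_lt ht]
    · rintro ⟨i, hi, rfl⟩
      refine ⟨ZMod.val_lt _, i, hi, ?_⟩
      rw [← ZMod.natCast_eq_zero_iff]
      push_cast
      rw [ZMod.natCast_zmod_val]
      field_simp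
      ring
  rw [h1, Finset.card_image_of_injOn]
  intro i hi j hj hij
  have h2 := ZMod.val_injective p hij
  have h3 : (i : ZMod p) = j := by
    have h4 := mul_right_cancel₀ (inv_ne_zero hq0) h2
    linear_combination -h4
  exact hB i hi j hj ((ZMod.natCast_eq_natCast_iff i j p).1 h3)

/-- Weierstrass product inequality -/
theorem one_sub_sum_le_prod {ι : Type} (s : Finset ι) (f : ι → ℝ) (h0 : ∀ i ∈ s, 0 ≤ f i)
    (h1 : ∀ i ∈ s, f i ≤ 1) : 1 - ∑ i ∈ s, f i ≤ ∏ i ∈ s, (1 - f i) ∧ ∏ i ∈ s, (1 - f i) ≤ 1 ∧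
      0 ≤ ∏ i ∈ s, (1 - f i) := by
  induction s using Finset.induction_on with
  | empty => simp
  | insert a s ha ih =>
    obtain ⟨i1, i2, i3⟩ := ih (fun i hi => h0 i (mem_insert_of_mem hi))
      (fun i hi => h1 i (mem_insert_of_mem hi))
    have ha0 := h0 a (mem_insert_self a s)
    have ha1 := h1 a (mem_insert_self a s)
    rw [sum_insert ha, prod_insert ha]
    refine ⟨?_, ?_, mul_nonneg (by linarith) i3⟩
    · nlinarith
    · nlinarith

theorem bern (k : ℕ) (u : ℝ) (h0 : 0 ≤ u) (h1 : k * u ≤ 1 / 2) :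
    1 - k * u ≤ (1 - u) ^ k ∧ (1 - u) ^ k * (1 - 2 * k ^ 2 * u ^ 2) ≤ 1 - k * u := by
  have hu1 : (k = 0) ∨ u ≤ 1 / 2 := by
    rcases Nat.eq_zero_or_pos k with h | h
    · exact Or.inl h
    · right
      have : (1 : ℝ) ≤ k := by exact_mod_cast h
      nlinarith
  rcases hu1 with rfl | hu1
  · simp
  have e1 : 1 - k * u ≤ (1 - u) ^ k := by
    have := one_add_mul_le_pow (show (-2 : ℝ) ≤ -u by linarith) k
    have h2 : (1 : ℝ) + k * -u = 1 - k * u := by ring
    rw [h2, ← sub_eq_add_neg] at this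
    exact this
  refine ⟨e1, ?_⟩
  -- upper bound by induction
  have e2 : ∀ m : ℕ, (m : ℝ) * u ≤ 1 / 2 → (1 - u) ^ m ≤ 1 - m * u + (m * u) ^ 2 / 2 := by
    intro m
    induction m with
    | zero => intro _; simp
    | succ m ih =>
      intro hm
      push_cast at hm ⊢
      have hm' : (m : ℝ) * u ≤ 1 / 2 := by nlinarith
      have h3 := ih hm'
      have h4 : 0 ≤ (m : ℝ) * u := by positivity
      calc (1 - u) ^ (m + 1) = (1 - u) ^ m * (1 - u) := pow_succ _ _
        _ ≤ (1 - m * u + (m * u) ^ 2 / 2) * (1 - u) :=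
            mul_le_mul_of_nonneg_right h3 (by linarith)
        _ ≤ _ := by nlinarith [mul_nonneg h0 (sq_nonneg ((m : ℝ) * u)), sq_nonneg u]
  have h3 := e2 k h1
  have h4 : 0 ≤ (k : ℝ) * u := by positivity
  have h5 : 0 ≤ 1 - 2 * (k : ℝ) ^ 2 * u ^ 2 := by nlinarith
  calc (1 - u) ^ k * (1 - 2 * k ^ 2 * u ^ 2)
      ≤ (1 - k * u + (k * u) ^ 2 / 2) * (1 - 2 * k ^ 2 * u ^ 2) :=
        mul_le_mul_of_nonneg_right h3 h5
    _ ≤ 1 - k * u := by
      set w := (k : ℝ) * u with hw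
      have h6 : 2 * (k : ℝ) ^ 2 * u ^ 2 = 2 * w ^ 2 := by rw [hw]; ring
      rw [h6]
      have h7 : (1 - w + w ^ 2 / 2) * (1 - 2 * w ^ 2) =
        1 - w - w ^ 2 * (3 / 2 - 2 * w + w ^ 2) := by ring
      rw [h7]
      have h8 : 0 ≤ w ^ 2 * (3 / 2 - 2 * w + w ^ 2) := by
        apply mul_nonneg (sq_nonneg _)
        nlinarith
      linarith

theorem sum_pr_sq (y z : ℕ) (hy : 1 ≤ y) : ∑ p ∈ pr y z, 1 / (p : ℝ) ^ 2 ≤ 1 / (y : ℝ) := by
  rcases le_total y z with h | h
  · calc ∑ p ∈ pr y z, 1 / (p : ℝ) ^ 2 ≤ ∑ p ∈ Ioc y z, ((p : ℝ) ^ 2)⁻¹ := by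
          simp only [one_div]
          exact Finset.sum_le_sum_of_subset_of_nonneg (filter_subset _ _)
            (fun i _ _ => by positivity)
      _ ≤ (y : ℝ)⁻¹ - (z : ℝ)⁻¹ := sum_Ioc_inv_sq_le_sub (by omega) h
      _ ≤ 1 / (y : ℝ) := by
          rw [one_div]
          have : (0 : ℝ) ≤ (z : ℝ)⁻¹ := by positivity
          linarith
  · have : pr y z = ∅ := by
      rw [pr, Ioc_eq_empty (by omega), filter_empty]
    rw [this]
    simp

/-- comparison of the products -/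
theorem om_pow (y z k : ℕ) (hy : 1 ≤ y) (hk : 2 * k ≤ y) :
    |∏ p ∈ pr y z, (1 - (k : ℝ) / p) - om y z ^ k| ≤ 2 * (k : ℝ) ^ 2 / y * om y z ^ k ∧
      ∏ p ∈ pr y z, (1 - (k : ℝ) / p) ≤ om y z ^ k ∧ 0 ≤ ∏ p ∈ pr y z, (1 - (k : ℝ) / p) := by
  have hp : ∀ p ∈ pr y z, (y : ℝ) < p := fun p hp => by
    exact_mod_cast (mem_Ioc.1 (mem_filter.1 hp).1).1
  have hy1 : (1 : ℝ) ≤ y := by exact_mod_cast hy
  have hk' : 2 * (k : ℝ) ≤ y := by exact_mod_cast hk
  have hb : ∀ p ∈ pr y z, (k : ℝ) * (1 / p) ≤ 1 / 2 := fun p hpp => by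
    have := hp p hpp
    rw [mul_one_div, div_le_div_iff₀ (by linarith) (by norm_num)]
    linarith
  have h1 : ∏ p ∈ pr y z, (1 - (k : ℝ) / p) ≤ om y z ^ k := by
    rw [om, ← Finset.prod_pow]
    refine Finset.prod_le_prod (fun p hpp => ?_) (fun p hpp => ?_)
    · have := hb p hpp
      rw [mul_one_div] at this
      linarith
    · have := (bern k (1 / p) (by positivity) (hb p hpp)).1
      rwa [mul_one_div] at this
  have h0 : 0 ≤ ∏ p ∈ pr y z, (1 - (k : ℝ) / p) := Finset.prod_nonneg fun p hpp => by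
    have := hb p hpp
    rw [mul_one_div] at this
    linarith
  have hom0 : 0 ≤ om y z := Finset.prod_nonneg fun p hpp => by
    have := hp p hpp
    have : 1 / (p : ℝ) ≤ 1 := by
      rw [div_le_one (by linarith)]
      linarith
    linarith
  have h2 : om y z ^ k * (1 - 2 * (k : ℝ) ^ 2 / y) ≤ ∏ p ∈ pr y z, (1 - (k : ℝ) / p) := by
    have hf1 : ∀ p ∈ pr y z, 2 * (k : ℝ) ^ 2 * (1 / p) ^ 2 ≤ 1 := fun p hpp => by
      have h3 := hb p hpp
      have h4 : 0 ≤ (k : ℝ) * (1 / p) := by positivity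
      nlinarith
    have h3 : 1 - 2 * (k : ℝ) ^ 2 / y ≤ ∏ p ∈ pr y z, (1 - 2 * (k : ℝ) ^ 2 * (1 / p) ^ 2) := by
      have h4 := (one_sub_sum_le_prod (pr y z) (fun p => 2 * (k : ℝ) ^ 2 * (1 / p) ^ 2)
        (fun p _ => by positivity) hf1).1
      refine le_trans ?_ h4
      rw [← Finset.mul_sum]
      have h5 := sum_pr_sq y z hy
      have h6 : ∑ p ∈ pr y z, (1 / (p : ℝ)) ^ 2 = ∑ p ∈ pr y z, 1 / (p : ℝ) ^ 2 :=
        Finset.sum_congr rfl fun p _ => by rw [one_div_pow]
      rw [h6]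
      have h7 : 2 * (k : ℝ) ^ 2 * ∑ p ∈ pr y z, 1 / (p : ℝ) ^ 2 ≤ 2 * (k : ℝ) ^ 2 * (1 / y) :=
        mul_le_mul_of_nonneg_left h5 (by positivity)
      rw [mul_one_div] at h7
      linarith
    calc om y z ^ k * (1 - 2 * (k : ℝ) ^ 2 / y)
        ≤ om y z ^ k * ∏ p ∈ pr y z, (1 - 2 * (k : ℝ) ^ 2 * (1 / p) ^ 2) :=
          mul_le_mul_of_nonneg_left h3 (pow_nonneg hom0 k)
      _ = ∏ p ∈ pr y z, ((1 - 1 / (p : ℝ)) ^ k * (1 - 2 * (k : ℝ) ^ 2 * (1 / p) ^ 2)) := by
          rw [om, ← Finset.prod_pow, Finset.prod_mul_distrib]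
      _ ≤ _ := by
          refine Finset.prod_le_prod (fun p hpp => ?_) (fun p hpp => ?_)
          · have h5 := hf1 p hpp
            have h6 := hp p hpp
            have h7 : 1 / (p : ℝ) ≤ 1 := by
              rw [div_le_one (by linarith)]
              linarith
            exact mul_nonneg (pow_nonneg (by linarith) _) (by linarith)
          · have := (bern k (1 / p) (by positivity) (hb p hpp)).2
            rwa [mul_one_div] at this
  refine ⟨?_, h1, h0⟩
  rw [abs_le]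
  constructor
  · nlinarith
  · have : 0 ≤ 2 * (k : ℝ) ^ 2 / y * om y z ^ k := by positivity
    linarith

end Pool.Agent.Helper74.PP
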