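import Pool.Agent.Helper74.PP.TLb
import Pool.Agent.Helper75.LG.PH
import Pool.Agent.Helper31.Tot.MP

/-! # TL: counting in a class with roughness and divisibility conditions -/

set_option autoImplicit false

open Finset Filter Topology

open scoped Classical

namespace Pool.Agent.Helper74.PP

open Pool.Agent.Helper88.PP
open Pool.Agent.Helper90.Twin (Adm nu Ps mem_Ps Sz)

theorem om_lower : ∃ c : ℝ, 0 < c ∧ ∀ y z : ℕ, 2 ≤ z →
    1 / (c * Real.log z) ≤ om y z ∧ om y z ≤ 1 := by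
  obtain ⟨C, hC, h⟩ := Pool.Agent.Helper75.LG.ph
  refine ⟨C, hC, fun y z hz => ?_⟩
  have hne := (primorial_pos z).ne'
  have h1 := h z hz
  rw [Pool.Agent.Helper75.LG.ratio_eq _ hne, Finset.prod_inv_distrib] at h1
  have hf : ∀ p ∈ (primorial z).primeFactors, 0 < 1 - 1 / (p : ℝ) := fun p hp => by
    have h2 : (2 : ℝ) ≤ p := by exact_mod_cast (Nat.prime_of_mem_primeFactors hp).two_le
    rw [sub_pos, div_lt_one (by linarith)]
    linarith
  have hpos : 0 < ∏ p ∈ (primorial z).primeFactors, (1 - 1 / (p : ℝ)) := Finset.prod_pos hf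
  have hlog : 0 < Real.log z := Real.log_pos (by exact_mod_cast (by omega : 1 < z))
  have h2 : 1 / (C * Real.log z) ≤ ∏ p ∈ (primorial z).primeFactors, (1 - 1 / (p : ℝ)) := by
    rw [div_le_iff₀ (by positivity)]
    rw [inv_le_iff_one_le_mul₀ hpos] at h1
    linarith
  have hsub : pr y z ⊆ (primorial z).primeFactors := by
    intro p hp
    obtain ⟨h3, h4⟩ := mem_filter.1 hp
    rw [mem_Ioc] at h3
    exact Nat.mem_primeFactors.2 ⟨h4, (Nat.Prime.dvd_primorial_iff h4).2 h3.2, hne⟩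
  have hsd : ∀ p ∈ (primorial z).primeFactors, 0 ≤ 1 / (p : ℝ) ∧ 1 / (p : ℝ) ≤ 1 := fun p hp =>
    ⟨by positivity, by linarith [hf p hp]⟩
  constructor
  · refine h2.trans ?_
    rw [← Finset.prod_sdiff hsub]
    have h5 := one_sub_sum_le_prod ((primorial z).primeFactors \ pr y z) (fun p => 1 / (p : ℝ))
      (fun p hp => (hsd p (mem_sdiff.1 hp).1).1) (fun p hp => (hsd p (mem_sdiff.1 hp).1).2)
    have h6 := one_sub_sum_le_prod (pr y z) (fun p => 1 / (p : ℝ))
      (fun p hp => (hsd p (hsub hp)).1) (fun p hp => (hsd p (hsub hp)).2)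
    exact mul_le_of_le_one_left h6.2.2 h5.2.1
  · exact (one_sub_sum_le_prod (pr y z) (fun p => 1 / (p : ℝ))
      (fun p hp => (hsd p (hsub hp)).1) (fun p hp => (hsd p (hsub hp)).2)).2.1

/-- the size of `XX x / D` -/
theorem M_lower (E z x : ℕ) (hE : 2000 ≤ E) (hz : 3 ≤ Real.log z) (hx : z ^ E ≤ x) (D : ℝ)
    (hD0 : 0 < D) (hD : D ≤ (z : ℝ) ^ (E / 4)) :
    1 / 2 * Real.exp (65 / 100 * (E * Real.log z)) ≤ XX x / D := by
  set l := Real.log z with hl
  have hz0 : (0 : ℝ) < z := by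
    by_contra hcon
    have h1 : (z : ℝ) = 0 := le_antisymm (not_lt.1 hcon) (Nat.cast_nonneg _)
    rw [hl, h1, Real.log_zero] at hz
    linarith
  have hxz : (z : ℝ) ^ E ≤ x := by exact_mod_cast hx
  have hx0 : (0 : ℝ) < x := lt_of_lt_of_le (by positivity) hxz
  have hX : (E : ℝ) * l ≤ Real.log x := by
    rw [hl, ← Real.log_pow]
    exact Real.log_le_log (by positivity) hxz
  set X := Real.log x with hXdef
  have hE' : (2000 : ℝ) ≤ E := by exact_mod_cast hE
  have hXpos : 0 ≤ X := le_trans (by positivity) hX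
  have hexp : Real.exp X = x := Real.exp_log hx0
  have hQ : (QQ x : ℝ) ≤ Real.exp (X / 10) := by
    have h1 : (QQ x : ℝ) ≤ (4 : ℝ) ^ ⌊X / 20⌋₊ := by
      rw [QQ]
      exact_mod_cast primorial_le_four_pow _
    refine h1.trans ?_
    have h2 : (4 : ℝ) ^ ⌊X / 20⌋₊ = Real.exp ((⌊X / 20⌋₊ : ℝ) * Real.log 4) := by
      rw [mul_comm, Real.exp_mul, Real.exp_log (by norm_num), Real.rpow_natCast]
    rw [h2]
    apply Real.exp_le_exp.2
    have h3 : (⌊X / 20⌋₊ : ℝ) ≤ X / 20 := Nat.floor_le (by positivity)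
    have h4 : Real.log 4 ≤ 2 := by
      have : Real.log 4 = 2 * Real.log 2 := by
        rw [show (4 : ℝ) = 2 ^ 2 by norm_num, Real.log_pow]; norm_num
      rw [this]
      linarith [Real.log_two_lt_d9]
    have h5 : 0 ≤ Real.log 4 := Real.log_nonneg (by norm_num)
    nlinarith
  have hQ0 : (0 : ℝ) < QQ x := by exact_mod_cast primorial_pos _
  have hD' : D ≤ Real.exp (E * l / 4) := by
    refine hD.trans ?_
    have h2 : (z : ℝ) ^ (E / 4) = Real.exp (((E / 4 : ℕ) : ℝ) * l) := by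
      rw [mul_comm, Real.exp_mul, hl, Real.exp_log hz0, Real.rpow_natCast]
    rw [h2]
    apply Real.exp_le_exp.2
    have h3 : ((E / 4 : ℕ) : ℝ) ≤ (E : ℝ) / 4 := Nat.cast_div_le
    nlinarith
  have hx2 : (x : ℝ) / 2 ≤ ((x - x / 2 : ℕ) : ℝ) := by
    have h1 : x ≤ 2 * (x - x / 2) := by omega
    have h2 : (x : ℝ) ≤ 2 * ((x - x / 2 : ℕ) : ℝ) := by exact_mod_cast h1
    linarith
  rw [XX, div_div, le_div_iff₀ (by positivity)]
  refine le_trans ?_ hx2
  calc 1 / 2 * Real.exp (65 / 100 * (E * l)) * ((QQ x : ℝ) * D)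
      ≤ 1 / 2 * Real.exp (65 / 100 * (E * l)) * (Real.exp (X / 10) * Real.exp (E * l / 4)) := by
        gcongr
    _ = 1 / 2 * Real.exp (65 / 100 * (E * l) + (X / 10 + E * l / 4)) := by
        rw [Real.exp_add, Real.exp_add]; ring
    _ ≤ 1 / 2 * Real.exp X := by
        gcongr
        linarith
    _ = x / 2 := by rw [hexp]; ring

/-- the final estimate -/
theorem final_est (K E k s : ℕ) (l P o M N cnt S D0 y C1 c2 : ℝ) (hE : 2000 ≤ E)
    (hs1 : (E : ℝ) / 40 - 1 ≤ s) (hs2 : 10 * (s : ℝ) ≤ E / 4) (hl : 3 ≤ l) (hkK : k ≤ K)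
    (hP0 : 0 ≤ P) (hPo : P ≤ o ^ k) (hPk : |P - o ^ k| ≤ 2 * (k : ℝ) ^ 2 / y * o ^ k)
    (hy : 10 * (K : ℝ) ^ 2 * Real.exp (E / 50) ≤ y) (hy0 : 0 < y)
    (hM : 1 / 2 * Real.exp (65 / 100 * (E * l)) ≤ M) (hN : |N - M| ≤ 1)
    (hc2 : 0 < c2)
    (ho1 : 1 / (c2 * l) ≤ o) (ho2 : o ≤ 1)
    (hS : S ≤ (C1 / l) ^ (K + 2)) (hS0 : 0 ≤ S)
    (h4 : 10 * C1 ^ (K + 2) * Real.exp (E / 50) * c2 ^ K ≤ l ^ 2)
    (h5 : (c2 * l) ^ K ≤ Real.exp l)
    (hD0 : D0 ≤ Real.exp (10 * s * l))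
    (hcnt : |cnt - N * P| ≤ Real.exp (-(s : ℝ)) * (N * P) + (N * S + D0)) :
    |cnt - M * o ^ k| ≤ Real.exp (-(1 / 50 * E)) * (M * o ^ k) := by
  have hE' : (2000 : ℝ) ≤ E := by exact_mod_cast hE
  have hl0 : 0 < l := by linarith
  have ho0 : 0 < o := lt_of_lt_of_le (by positivity) ho1
  have hok : 0 < o ^ k := pow_pos ho0 k
  have hok1 : o ^ k ≤ 1 := pow_le_one₀ ho0.le ho2
  have hEl : 0 ≤ (E : ℝ) * l := by positivity
  have hEl2 : 6000 ≤ (E : ℝ) * l := by nlinarith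
  have hM1 : 1 ≤ M := by
    refine le_trans ?_ hM
    have := Real.add_one_le_exp (65 / 100 * ((E : ℝ) * l))
    linarith
  have hgK : (1 / (c2 * l)) ^ K ≤ o ^ k :=
    calc (1 / (c2 * l)) ^ K ≤ o ^ K := pow_le_pow_left₀ (by positivity) ho1 K
      _ ≤ o ^ k := pow_le_pow_of_le_one ho0.le ho2 hkK
  set e := Real.exp (-(1 / 50 * (E : ℝ))) with he
  have he0 : 0 < e := Real.exp_pos _
  have hee : e * Real.exp (E / 50) = 1 := by
    rw [he, ← Real.exp_add, show -(1 / 50 * (E : ℝ)) + E / 50 = 0 by ring, Real.exp_zero]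
  rw [abs_le] at hN
  have hN2 : N ≤ 2 * M := by linarith
  have hN0 : 0 ≤ N := by linarith
  -- (a)
  have ha : Real.exp (-(s : ℝ)) * (N * P) ≤ 1 / 5 * (e * (M * o ^ k)) := by
    have h1 : Real.exp (-(s : ℝ)) ≤ 1 / 10 * e := by
      have h2 : Real.exp (-(s : ℝ)) ≤ Real.exp (-9 + -(1 / 50 * (E : ℝ))) :=
        Real.exp_le_exp.2 (by linarith)
      rw [Real.exp_add] at h2
      have h3 : Real.exp (-9) ≤ 1 / 10 := by
        rw [Real.exp_neg, inv_eq_one_div]
        apply one_div_le_one_div_of_le (by norm_num)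
        have := Real.add_one_le_exp (9 : ℝ)
        linarith
      exact h2.trans (mul_le_mul_of_nonneg_right h3 he0.le)
    calc Real.exp (-(s : ℝ)) * (N * P) ≤ (1 / 10 * e) * (2 * M * o ^ k) := by
          apply mul_le_mul h1 _ (by positivity) (by positivity)
          exact mul_le_mul hN2 hPo hP0 (by positivity)
      _ = _ := by ring
  -- (b)
  have hb : N * S ≤ 1 / 5 * (e * (M * o ^ k)) := by
    have h1 : S ≤ 1 / 10 * e * o ^ k := by
      refine hS.trans (le_trans ?_ (mul_le_mul_of_nonneg_left hgK (by positivity)))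
      rw [div_pow, div_pow, one_pow, mul_one_div, div_le_div_iff₀ (by positivity) (by positivity)]
      have h2 : C1 ^ (K + 2) * c2 ^ K ≤ 1 / 10 * e * l ^ 2 := by
        have h3 := mul_le_mul_of_nonneg_left h4 (show 0 ≤ 1 / 10 * e by positivity)
        calc C1 ^ (K + 2) * c2 ^ K
            = (e * Real.exp (E / 50)) * (C1 ^ (K + 2) * c2 ^ K) := by rw [hee, one_mul]
          _ = 1 / 10 * e * (10 * C1 ^ (K + 2) * Real.exp (E / 50) * c2 ^ K) := by ring
          _ ≤ _ := h3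
      calc C1 ^ (K + 2) * (c2 * l) ^ K = (C1 ^ (K + 2) * c2 ^ K) * l ^ K := by
            rw [mul_pow]; ring
        _ ≤ (1 / 10 * e * l ^ 2) * l ^ K := mul_le_mul_of_nonneg_right h2 (by positivity)
        _ = _ := by rw [pow_add]; ring
    calc N * S ≤ (2 * M) * (1 / 10 * e * o ^ k) := mul_le_mul hN2 h1 hS0 (by positivity)
      _ = _ := by ring
  -- (c)
  have hc : D0 + 1 ≤ 1 / 5 * (e * (M * o ^ k)) := by
    have h1 : D0 ≤ Real.exp (E * l / 4) :=
      hD0.trans (Real.exp_le_exp.2 (by nlinarith))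
    have h2 : (1 : ℝ) ≤ Real.exp (E * l / 4) := Real.one_le_exp (by positivity)
    have h3 : Real.exp (-l) ≤ o ^ k := by
      refine le_trans ?_ hgK
      rw [Real.exp_neg, one_div_pow, inv_eq_one_div]
      exact one_div_le_one_div_of_le (by positivity) h5
    have h6 : 20 ≤ Real.exp (4 / 10 * (E * l) - l - E / 50) := by
      have := Real.add_one_le_exp (4 / 10 * (E * l) - l - (E : ℝ) / 50)
      nlinarith
    calc D0 + 1 ≤ 2 * Real.exp (E * l / 4) := by linarith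
      _ = 20 * (1 / 10 * Real.exp (E * l / 4)) := by ring
      _ ≤ Real.exp (4 / 10 * (E * l) - l - E / 50) * (1 / 10 * Real.exp (E * l / 4)) :=
          mul_le_mul_of_nonneg_right h6 (by positivity)
      _ = 1 / 5 * (e * ((1 / 2 * Real.exp (65 / 100 * (E * l))) * Real.exp (-l))) := by
          have h7 : Real.exp (4 / 10 * (E * l) - l - E / 50) * Real.exp (E * l / 4) =
              e * (Real.exp (65 / 100 * (E * l)) * Real.exp (-l)) := by
            rw [he, ← Real.exp_add, ← Real.exp_add, ← Real.exp_add]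
            congr 1
            ring
          linear_combination (1 / 10) * h7
      _ ≤ 1 / 5 * (e * (M * o ^ k)) := by
          have h8 := mul_le_mul hM h3 (Real.exp_pos _).le (by linarith)
          have h9 := mul_le_mul_of_nonneg_left h8 he0.le
          linarith
  -- (d)
  have hd : M * |P - o ^ k| ≤ 1 / 5 * (e * (M * o ^ k)) := by
    have h1 : 2 * (k : ℝ) ^ 2 / y ≤ 1 / 5 * e := by
      rw [div_le_iff₀ hy0]
      have h2 : (k : ℝ) ≤ K := by exact_mod_cast hkK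
      have h3 : (k : ℝ) ^ 2 ≤ (K : ℝ) ^ 2 := pow_le_pow_left₀ (Nat.cast_nonneg _) h2 2
      have h4 := mul_le_mul_of_nonneg_left hy he0.le
      have h5 : e * (10 * (K : ℝ) ^ 2 * Real.exp (E / 50)) = 10 * (K : ℝ) ^ 2 := by
        calc e * (10 * (K : ℝ) ^ 2 * Real.exp (E / 50))
            = (e * Real.exp (E / 50)) * (10 * (K : ℝ) ^ 2) := by ring
          _ = _ := by rw [hee, one_mul]
      rw [h5] at h4
      linarith
    calc M * |P - o ^ k| ≤ M * (1 / 5 * e * o ^ k) := by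
          apply mul_le_mul_of_nonneg_left _ (by linarith)
          exact hPk.trans (mul_le_mul_of_nonneg_right h1 hok.le)
      _ = _ := by ring
  have hNM : |N * P - M * P| ≤ 1 := by
    rw [← sub_mul, abs_mul, abs_of_nonneg hP0]
    have h1 : |N - M| ≤ 1 := abs_le.2 hN
    calc |N - M| * P ≤ 1 * 1 := mul_le_mul h1 (hPo.trans hok1) hP0 (by norm_num)
      _ = 1 := one_mul 1
  have hMP : |M * P - M * o ^ k| = M * |P - o ^ k| := by
    rw [← mul_sub, abs_mul, abs_of_nonneg (by linarith : 0 ≤ M)]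
  have htri : |cnt - M * o ^ k| ≤ |cnt - N * P| + |N * P - M * P| + |M * P - M * o ^ k| := by
    calc |cnt - M * o ^ k| = |(cnt - N * P) + (N * P - M * P) + (M * P - M * o ^ k)| := by
          congr 1; ring
      _ ≤ _ := abs_add_three _ _ _
  have hpos : 0 ≤ e * (M * o ^ k) := by positivity
  rw [hMP] at htri
  linarith

theorem tl : StmtTL := by
  obtain ⟨c2, hc2, hom⟩ := om_lower
  obtain ⟨C1, hC1, hSz⟩ := Pool.Agent.Helper31.Tot.pf_Sz
  refine ⟨1 / 50, by norm_num, fun K => ?_⟩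
  obtain ⟨s0, hs0⟩ := fl (κ := (K : ℝ) + 1) (by
    have : (0 : ℝ) ≤ K := Nat.cast_nonneg _
    linarith) (A := ((K + 2 : ℕ) : ℝ)) (Nat.cast_nonneg _)
  refine ⟨max (40 * (s0 + 1)) 2000, fun E hE => ?_⟩
  have hE1 : 40 * (s0 + 1) ≤ E := le_trans (le_max_left _ _) hE
  have hE2 : 2000 ≤ E := le_trans (le_max_right _ _) hE
  have hE' : (2000 : ℝ) ≤ E := by exact_mod_cast hE2
  set s := E / 40 with hs
  have hss : s0 ≤ s := by omega
  have hs1 : (E : ℝ) / 40 - 1 ≤ s := by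
    have h1 : E ≤ 40 * (s + 1) := by omega
    have h2 : (E : ℝ) ≤ 40 * ((s : ℝ) + 1) := by exact_mod_cast h1
    linarith
  have hs2 : 10 * (s : ℝ) ≤ E / 4 := by
    have h1 : 40 * s ≤ E := by omega
    have h2 : 40 * (s : ℝ) ≤ E := by exact_mod_cast h1
    linarith
  -- the thresholds
  have hlog : Tendsto (fun z : ℕ => Real.log (z : ℝ)) atTop atTop :=
    Real.tendsto_log_atTop.comp tendsto_natCast_atTop_atTop
  have hA : ∀ᶠ z : ℕ in atTop, ((E : ℝ) * Real.log ((z : ℝ) + 1)) ^ 2 < z := by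
    have h1 : ∀ᶠ u : ℝ in atTop, ‖Real.log u ^ 2‖ ≤ 1 / (4 * (E : ℝ) ^ 2) * ‖id u‖ :=
      (Asymptotics.isLittleO_iff.1 Real.isLittleO_pow_log_id_atTop) (by positivity)
    have h2 : Tendsto (fun z : ℕ => (z : ℝ) + 1) atTop atTop :=
      tendsto_natCast_atTop_atTop.atTop_add tendsto_const_nhds
    filter_upwards [h2.eventually h1, eventually_ge_atTop 1] with z hz hz1
    have hz1' : (1 : ℝ) ≤ z := by exact_mod_cast hz1
    rw [Real.norm_eq_abs, Real.norm_eq_abs, id, abs_of_nonneg (sq_nonneg _),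
      abs_of_nonneg (by linarith)] at hz
    have h3 : ((E : ℝ) * Real.log ((z : ℝ) + 1)) ^ 2 = (E : ℝ) ^ 2 * Real.log ((z : ℝ) + 1) ^ 2 := by
      ring
    rw [h3]
    calc (E : ℝ) ^ 2 * Real.log ((z : ℝ) + 1) ^ 2
        ≤ (E : ℝ) ^ 2 * (1 / (4 * (E : ℝ) ^ 2) * ((z : ℝ) + 1)) :=
          mul_le_mul_of_nonneg_left hz (by positivity)
      _ = ((z : ℝ) + 1) / 4 := by
          field_simp
      _ < z := by linarith
  have hB : ∀ᶠ z : ℕ in atTop, (c2 * Real.log (z : ℝ)) ^ K ≤ z := by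
    have h1 : ∀ᶠ u : ℝ in atTop, ‖Real.log u ^ K‖ ≤ 1 / c2 ^ K * ‖id u‖ :=
      (Asymptotics.isLittleO_iff.1 Real.isLittleO_pow_log_id_atTop) (by positivity)
    filter_upwards [tendsto_natCast_atTop_atTop.eventually h1] with z hz
    rw [id, Real.norm_natCast] at hz
    have h2 : Real.log (z : ℝ) ^ K ≤ 1 / c2 ^ K * z := (Real.le_norm_self _).trans hz
    rw [mul_pow]
    calc c2 ^ K * Real.log (z : ℝ) ^ K ≤ c2 ^ K * (1 / c2 ^ K * z) :=
          mul_le_mul_of_nonneg_left h2 (by positivity)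
      _ = z := by field_simp
  set L1 : ℝ := max 3 (max (4 * ((K : ℝ) + 1)) (10 * (K : ℝ) ^ 2 * Real.exp (E / 50))) with hL1
  set L2 : ℝ := 10 * C1 ^ (K + 2) * Real.exp (E / 50) * c2 ^ K with hL2
  have hmain : ∀ᶠ z : ℕ in atTop, ∀ x y : ℕ, Sc E z x y → ∀ b : ℕ, b < QQ x → ∀ B : Finset ℕ,
      B ⊆ Icc 1 y →
      B.card ≤ K → ∀ d : ℕ → ℕ, (∀ i ∈ B, Sf z (d i)) → ∏ i ∈ B, d i ≤ z ^ (E / 4) →
      ((∀ i ∈ B, ∀ j ∈ B, i ≠ j → Nat.Coprime (d i) (d j)) →
        |(((NN x b).filter (fun n => ∀ i ∈ B, d i ∣ n + i ∧ Rg y z (n + i))).card : ℝ)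
          - XX x * ∏ i ∈ B, (om y z / d i)| ≤
            Real.exp (-(1 / 50 * (E : ℝ))) * (XX x * ∏ i ∈ B, (om y z / d i)))
      ∧ (¬ (∀ i ∈ B, ∀ j ∈ B, i ≠ j → Nat.Coprime (d i) (d j)) →
        ((NN x b).filter (fun n => ∀ i ∈ B, d i ∣ n + i ∧ Rg y z (n + i))).card = 0) := by
    filter_upwards [hs0 s hss, hA, hB, hlog.eventually_ge_atTop L1, hlog.eventually_ge_atTop L2,
      eventually_ge_atTop 3] with z hfl hzA hzB hzL1 hzL2 hz3
    intro x y hSc b hb B hBy hBK d hd hdD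
    obtain ⟨hx1, hx2, hy1, hy2⟩ := hSc
    set l := Real.log (z : ℝ) with hl
    have hl3 : 3 ≤ l := le_trans (le_max_left _ _) hzL1
    have hlK : 4 * ((K : ℝ) + 1) ≤ l :=
      le_trans (le_trans (le_max_left _ _) (le_max_right _ _)) hzL1
    have hlK2 : 10 * (K : ℝ) ^ 2 * Real.exp (E / 50) ≤ l :=
      le_trans (le_trans (le_max_right _ _) (le_max_right _ _)) hzL1
    have hz0 : (0 : ℝ) < z := by exact_mod_cast (by omega : 0 < z)
    have hxz : (z : ℝ) ^ E ≤ x := by exact_mod_cast hx1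
    have hx0 : (0 : ℝ) < x := lt_of_lt_of_le (by positivity) hxz
    have hX : (E : ℝ) * l ≤ Real.log x := by
      rw [hl, ← Real.log_pow]
      exact Real.log_le_log (by positivity) hxz
    have hX2 : Real.log x ≤ E * Real.log ((z : ℝ) + 1) := by
      rw [← Real.log_pow]
      exact Real.log_le_log hx0 (by exact_mod_cast hx2.le)
    have hEl : 1 * l ≤ E * l := mul_le_mul_of_nonneg_right (by linarith) (by linarith)
    have hly : l ≤ y := by linarith
    have hX0 : 0 ≤ Real.log x := by linarith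
    have hyz : (y : ℝ) < z := by
      calc (y : ℝ) ≤ Real.log x ^ 2 := hy2
        _ ≤ ((E : ℝ) * Real.log ((z : ℝ) + 1)) ^ 2 := pow_le_pow_left₀ hX0 hX2 2
        _ < z := hzA
    have hyz' : y < z := by exact_mod_cast hyz
    have hyK : 4 * (K + 1) ≤ y := by
      have : 4 * ((K : ℝ) + 1) ≤ y := hlK.trans hly
      exact_mod_cast this
    have hpQ : ∀ p : ℕ, p.Prime → p ∣ QQ x → p ≤ y := by
      intro p hp hpd
      have h1 := (Nat.Prime.dvd_primorial_iff hp).1 hpd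
      have h2 : (⌊Real.log x / 20⌋₊ : ℝ) ≤ Real.log x / 20 := Nat.floor_le (by positivity)
      have h3 : (p : ℝ) ≤ (⌊Real.log x / 20⌋₊ : ℝ) := by exact_mod_cast h1
      have h4 : (p : ℝ) ≤ y := by linarith
      exact_mod_cast h4
    constructor
    · intro hcc
      have hd0 : ∀ i ∈ B, 0 < d i := fun i hi => Nat.pos_of_ne_zero (hd i hi).1.ne_zero
      have hc : ∀ i ∈ B, Nat.Coprime (QQ x) (d i) := by
        intro i hi
        by_contra hcon
        obtain ⟨p, hp, h1, h2⟩ := Nat.Prime.not_coprime_iff_dvd.1 hcon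
        have h3 := hpQ p hp h1
        have h4 := (hd i hi).2 p hp h2
        omega
      have hq : ∀ p : ℕ, p.Prime → y < p → p ≤ z → ¬ p ∣ QQ x * ∏ i ∈ B, d i := by
        intro p hp hyp hpz hdv
        rcases (Nat.Prime.dvd_mul hp).1 hdv with h | h
        · have := hpQ p hp h
          omega
        · obtain ⟨i, hi, h2⟩ := (Nat.Prime.prime hp).exists_mem_finset_dvd h
          have h4 := (hd i hi).2 p hp h2
          omega
      obtain ⟨N, w, hAdm, hcnt, hnu, hN⟩ :=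
        count_eq x y z b K B d (by omega) hBy hBK hb hd0 hc hcc hq
      have hflw := hfl w hAdm N
      rw [← hcnt, hnu] at hflw
      have hprod : ∏ i ∈ B, (om y z / (d i : ℝ)) = om y z ^ B.card / ∏ i ∈ B, (d i : ℝ) := by
        rw [Finset.prod_div_distrib, Finset.prod_const]
      have hDpos : 0 < ∏ i ∈ B, (d i : ℝ) := Finset.prod_pos fun i hi => by exact_mod_cast hd0 i hi
      have hD : ∏ i ∈ B, (d i : ℝ) ≤ (z : ℝ) ^ (E / 4) := by exact_mod_cast hdD
      have hgoal : XX x * ∏ i ∈ B, (om y z / (d i : ℝ)) =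
          XX x / (∏ i ∈ B, (d i : ℝ)) * om y z ^ B.card := by
        rw [hprod]
        ring
      rw [hgoal]
      have homp := om_pow y z B.card (by omega) (by omega)
      have hzz := hom y z (by omega)
      have hSzz := hSz z (by omega)
      refine final_est K E B.card s l (∏ p ∈ pr y z, (1 - (B.card : ℝ) / p)) (om y z)
        (XX x / ∏ i ∈ B, (d i : ℝ)) N _ (Real.exp (-(((K + 2 : ℕ) : ℝ) * Sz z)))
        ((z : ℝ) ^ (10 * s)) y C1 c2 hE2 hs1 hs2 hl3 hBK homp.2.2 homp.2.1 homp.1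
        (hlK2.trans hly) (by linarith) (M_lower E z x hE2 hl3 hx1 _ hDpos hD) hN hc2
        hzz.1 hzz.2 ?_ (Real.exp_pos _).le ?_ ?_ ?_ hflw
      · have h1 : Real.exp (-(((K + 2 : ℕ) : ℝ) * Sz z)) = Real.exp (-Sz z) ^ (K + 2) := by
          rw [← Real.exp_nat_mul]
          congr 1
          ring
        rw [h1]
        exact pow_le_pow_left₀ (Real.exp_pos _).le hSzz _
      · exact hzL2.trans (le_self_pow₀ (by linarith) (by norm_num))
      · rw [hl, Real.exp_log hz0]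
        exact hzB
      · have h2 : (z : ℝ) ^ (10 * s) = Real.exp (10 * (s : ℝ) * l) := by
          rw [mul_comm (10 * (s : ℝ)) l, Real.exp_mul, hl, Real.exp_log hz0]
          rw [← Real.rpow_natCast]
          push_cast
          rfl
        rw [h2]
    · intro hcc
      push Not at hcc
      obtain ⟨i, hi, j, hj, hij, hcop⟩ := hcc
      obtain ⟨p, hp, h1, h2⟩ := Nat.Prime.not_coprime_iff_dvd.1 hcop
      have hzp := (hd i hi).2 p hp h1
      rw [Finset.card_eq_zero, Finset.filter_eq_empty_iff]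
      intro n _ hn
      have h3 : p ∣ n + i := h1.trans (hn i hi).1
      have h4 : p ∣ n + j := h2.trans (hn j hj).1
      have hi1 := mem_Icc.1 (hBy hi)
      have hj1 := mem_Icc.1 (hBy hj)
      rcases lt_or_gt_of_ne hij with h | h
      · have h5 : p ∣ (n + j) - (n + i) := Nat.dvd_sub h4 h3
        have h6 := Nat.le_of_dvd (by omega) h5
        omega
      · have h5 : p ∣ (n + i) - (n + j) := Nat.dvd_sub h3 h4
        have h6 := Nat.le_of_dvd (by omega) h5
        omega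
  obtain ⟨z0, hz0⟩ := eventually_atTop.1 hmain
  exact ⟨z0, hz0⟩

end Pool.Agent.Helper74.PP
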