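import Pool.Agent.Helper74.PP.TLa

/-! # TL: the count as a sieve sum -/

set_option autoImplicit false

open Finset Filter Topology

open scoped Classical

namespace Pool.Agent.Helper74.PP

open Pool.Agent.Helper88.PP
open Pool.Agent.Helper90.Twin (Adm nu Ps mem_Ps Sz)

/-- the sieve weights -/
noncomputable def sw (y z a q : ℕ) (B : Finset ℕ) (p t : ℕ) : ℝ :=
  if y < p ∧ p ≤ z ∧ ∃ i ∈ B, p ∣ a + q * t + i then 1 else 0

theorem nu_sw (y z a q p : ℕ) (B : Finset ℕ) (hp : p.Prime) (hBy : B ⊆ Icc 1 y)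
    (hq : y < p → p ≤ z → ¬ p ∣ q) :
    nu (sw y z a q B) p = if y < p ∧ p ≤ z then (B.card : ℝ) else 0 := by
  rw [nu]
  split_ifs with h
  · rw [← nu_card p a q hp (hq h.1 h.2) B ?_]
    · refine Finset.sum_congr rfl fun t _ => ?_
      rw [sw]
      refine if_congr ?_ rfl rfl
      simp only [h.1, h.2, true_and]
    · intro i hi j hj hij
      have h1 := (mem_Icc.1 (hBy hi)).2
      have h2 := (mem_Icc.1 (hBy hj)).2
      exact Nat.ModEq.eq_of_lt_of_lt hij (by omega) (by omega)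
  · refine Finset.sum_eq_zero fun t _ => ?_
    rw [sw, if_neg]
    rintro ⟨h1, h2, _⟩
    exact h ⟨h1, h2⟩

theorem adm_sw (y z a q K : ℕ) (B : Finset ℕ) (hBy : B ⊆ Icc 1 y) (hBK : B.card ≤ K)
    (hq : ∀ p : ℕ, p.Prime → y < p → p ≤ z → ¬ p ∣ q) :
    Adm (sw y z a q B) ((K : ℝ) + 1) where
  nonneg := fun p _ _ t => by
    rw [sw]
    split_ifs <;> norm_num
  le_one := fun p _ _ t => by
    rw [sw]
    split_ifs <;> norm_num
  per := fun p _ _ t => by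
    rw [sw, sw]
    refine if_congr ?_ rfl rfl
    have h : ∀ i, p ∣ a + q * (t + p) + i ↔ p ∣ a + q * t + i := fun i => by
      rw [show a + q * (t + p) + i = (a + q * t + i) + q * p by ring]
      exact (Nat.dvd_add_left (dvd_mul_left p q))
    simp only [h]
  nu_le := fun p hp _ => by
    rw [nu_sw y z a q p B hp hBy (hq p hp)]
    have h1 : (B.card : ℝ) ≤ K := by exact_mod_cast hBK
    have h2 : (0 : ℝ) ≤ K := Nat.cast_nonneg _
    split_ifs <;> linarith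

theorem prod_nu (y z a q : ℕ) (B : Finset ℕ) (hy : 4 ≤ y) (hBy : B ⊆ Icc 1 y)
    (hq : ∀ p : ℕ, p.Prime → y < p → p ≤ z → ¬ p ∣ q) :
    ∏ p ∈ Ps z, (1 - nu (sw y z a q B) p / p) = ∏ p ∈ pr y z, (1 - (B.card : ℝ) / p) := by
  symm
  have hsub : pr y z ⊆ Ps z := by
    intro p hp
    obtain ⟨h1, h2⟩ := mem_filter.1 hp
    rw [mem_Ioc] at h1
    exact mem_Ps.2 ⟨by omega, h1.2, h2⟩
  rw [← Finset.prod_subset hsub (f := fun p => 1 - nu (sw y z a q B) p / p)]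
  · refine Finset.prod_congr rfl fun p hp => ?_
    obtain ⟨h1, h2⟩ := mem_filter.1 hp
    rw [mem_Ioc] at h1
    rw [nu_sw y z a q p B h2 hBy (hq p h2), if_pos h1]
  · intro p hp hpn
    obtain ⟨h1, h2, h3⟩ := mem_Ps.1 hp
    rw [nu_sw y z a q p B h3 hBy (hq p h3), if_neg, zero_div, sub_zero]
    rintro ⟨h4, h5⟩
    exact hpn (mem_filter.2 ⟨mem_Ioc.2 ⟨h4, h5⟩, h3⟩)

theorem prod_sw (y z a q : ℕ) (B : Finset ℕ) (hy : 4 ≤ y) (t : ℕ) :
    ∏ p ∈ Ps z, (1 - sw y z a q B p t) =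
      if ∀ i ∈ B, Rg y z (a + q * t + i) then (1 : ℝ) else 0 := by
  split_ifs with h
  · refine Finset.prod_eq_one fun p hp => ?_
    rw [sw, if_neg, sub_zero]
    rintro ⟨h1, h2, i, hi, hd⟩
    exact h i hi p (mem_filter.2 ⟨mem_Ioc.2 ⟨h1, h2⟩, (mem_Ps.1 hp).2.2⟩) hd
  · push Not at h
    obtain ⟨i, hi, hR⟩ := h
    rw [Rg] at hR
    push Not at hR
    obtain ⟨p, hp, hd⟩ := hR
    obtain ⟨h1, h2⟩ := mem_filter.1 hp
    rw [mem_Ioc] at h1
    refine Finset.prod_eq_zero (mem_Ps.2 ⟨by omega, h1.2, h2⟩ : p ∈ Ps z) ?_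
    rw [sw, if_pos ⟨h1.1, h1.2, i, hi, hd⟩, sub_self]

theorem count_eq (x y z b K : ℕ) (B : Finset ℕ) (d : ℕ → ℕ) (hy : 4 ≤ y)
    (hBy : B ⊆ Icc 1 y) (hBK : B.card ≤ K) (hb : b < QQ x) (hd : ∀ i ∈ B, 0 < d i)
    (hc : ∀ i ∈ B, Nat.Coprime (QQ x) (d i))
    (hcc : ∀ i ∈ B, ∀ j ∈ B, i ≠ j → Nat.Coprime (d i) (d j))
    (hq : ∀ p : ℕ, p.Prime → y < p → p ≤ z → ¬ p ∣ QQ x * ∏ i ∈ B, d i) :
    ∃ (N : ℕ) (w : ℕ → ℕ → ℝ), Adm w ((K : ℝ) + 1) ∧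
      (((NN x b).filter (fun n => ∀ i ∈ B, d i ∣ n + i ∧ Rg y z (n + i))).card : ℝ) =
        ∑ t ∈ range N, ∏ p ∈ Ps z, (1 - w p t) ∧
      ∏ p ∈ Ps z, (1 - nu w p / p) = ∏ p ∈ pr y z, (1 - (B.card : ℝ) / p) ∧
      |(N : ℝ) - XX x / ∏ i ∈ B, (d i : ℝ)| ≤ 1 := by
  have hQ : 0 < QQ x := primorial_pos _
  set q := QQ x * ∏ i ∈ B, d i with hqdef
  have hq0 : 0 < q := Nat.mul_pos hQ (Finset.prod_pos hd)
  obtain ⟨r, hr⟩ := crt (QQ x) b hb B d hd hc hcc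
  obtain ⟨a, N, hset, hN⟩ := ap_exists (x / 2) x q r hq0 (Nat.div_le_self _ _)
  refine ⟨N, sw y z a q B, adm_sw y z a q K B hBy hBK hq, ?_, prod_nu y z a q B hy hBy hq, ?_⟩
  · have h1 : (NN x b).filter (fun n => ∀ i ∈ B, d i ∣ n + i ∧ Rg y z (n + i)) =
        ((range N).image (fun t => a + q * t)).filter (fun n => ∀ i ∈ B, Rg y z (n + i)) := by
      rw [← hset]
      ext n
      simp only [NN, mem_filter]
      constructor
      · rintro ⟨⟨h1, h2⟩, h3⟩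
        exact ⟨⟨h1, (hr n).1 ⟨h2, fun i hi => (h3 i hi).1⟩⟩, fun i hi => (h3 i hi).2⟩
      · rintro ⟨⟨h1, h2⟩, h3⟩
        have h4 := (hr n).2 h2
        exact ⟨⟨h1, h4.1⟩, fun i hi => ⟨h4.2 i hi, h3 i hi⟩⟩
    rw [h1, Finset.card_filter]
    push_cast
    rw [Finset.sum_image]
    · refine Finset.sum_congr rfl fun t _ => ?_
      rw [prod_sw y z a q B hy t]
    · intro t _ s _ hts
      have h2 : q * t = q * s := by
        have : a + q * t = a + q * s := hts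
        omega
      exact Nat.eq_of_mul_eq_mul_left hq0 h2
  · have h2 : XX x / ∏ i ∈ B, (d i : ℝ) = ((x - x / 2 : ℕ) : ℝ) / (q : ℝ) := by
      rw [XX, hqdef]
      push_cast
      rw [div_div]
    rw [h2]
    exact hN

end Pool.Agent.Helper74.PP
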